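import Pool.Agent.Q12.Iso.Cyc

/-!
# Assembly
-/

namespace Pool.Agent.Q12.Iso

open scoped InnerProductSpace ComplexOrder ENNReal NNReal

universe u

variable {H : Type u} [NormedAddCommGroup H] [InnerProductSpace ℂ H] [CompleteSpace H]

namespace Sys

variable (S : Sys H)

theorem U_apply {a : H →L[ℂ] H} (ha : a ∈ S.A) :
    S.U (a S.Ω) = ((S.α ⟨a, ha⟩ : S.A.toStarSubalgebra) : H →L[ℂ] H) S.Ω := S.U_spec ⟨a, ha⟩

theorem U_J (x : H) : S.U (S.J x) = S.J (S.U x) := by
  have h : (fun x => S.U (S.J x)) = fun x => S.J (S.U x) := by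
    refine Continuous.ext_on S.cyclic (S.U.continuous.comp S.J.continuous)
      (S.J.continuous.comp S.U.continuous) ?_
    rintro _ ⟨a, ha, rfl⟩
    simp only
    rw [S.J_apply ha, S.U_apply (star_mem ha), S.U_apply ha, S.J_spec]
    have : (⟨star a, star_mem ha⟩ : S.A.toStarSubalgebra) = star ⟨a, ha⟩ := rfl
    rw [this, map_star]
    rfl
  exact congrFun h x

theorem U_mul (a : S.A.toStarSubalgebra) (x : H) :
    S.U ((a : H →L[ℂ] H) x) = ((S.α a : S.A.toStarSubalgebra) : H →L[ℂ] H) (S.U x) := by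
  have h : (fun x => S.U ((a : H →L[ℂ] H) x)) =
      fun x => ((S.α a : S.A.toStarSubalgebra) : H →L[ℂ] H) (S.U x) := by
    refine Continuous.ext_on S.cyclic (S.U.continuous.comp (a : H →L[ℂ] H).continuous)
      ((ContinuousLinearMap.continuous _).comp S.U.continuous) ?_
    rintro _ ⟨b, hb, rfl⟩
    simp only
    rw [S.U_apply hb]
    have := S.U_spec (a * ⟨b, hb⟩)
    rw [map_mul] at this
    exact this
  exact congrFun h x

/-- `U (J g J) U* = J α(g) J`. -/
theorem U_Nc {G : S.Sub} {n : H →L[ℂ] H} (hn : n ∈ S.Nc G.F) :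
    ∃ m ∈ S.Nc G.F, ∀ x, S.U (n x) = m (S.U x) := by
  set g : S.A.toStarSubalgebra := ⟨S.Jc n, G.le _ hn⟩ with hg
  have hg' : ((S.α g : S.A.toStarSubalgebra) : H →L[ℂ] H) ∈ G.F := (G.map_eq g).1 hn
  refine ⟨S.Jc ((S.α g : S.A.toStarSubalgebra) : H →L[ℂ] H), S.Jc_mem_Nc hg', fun x => ?_⟩
  have h1 : n x = S.J ((g : H →L[ℂ] H) (S.J x)) := by
    change n x = S.J (S.Jc n (S.J x))
    rw [Jc_apply, S.JJ, S.JJ]
  rw [h1, S.U_J, S.U_mul, S.U_J, Jc_apply]

theorem U_symm_Nc {G : S.Sub} {n : H →L[ℂ] H} (hn : n ∈ S.Nc G.F) :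
    ∃ m ∈ S.Nc G.F, ∀ x, S.U.symm (n x) = m (S.U.symm x) := by
  set g : S.A.toStarSubalgebra := S.α.symm ⟨S.Jc n, G.le _ hn⟩ with hg
  have hag : S.α g = ⟨S.Jc n, G.le _ hn⟩ := by rw [hg]; simp
  have hg' : (g : H →L[ℂ] H) ∈ G.F := (G.map_eq g).2 (by rw [hag]; exact hn)
  refine ⟨S.Jc (g : H →L[ℂ] H), S.Jc_mem_Nc hg', fun x => ?_⟩
  apply S.U.injective
  rw [S.U.apply_symm_apply, Jc_apply, S.U_J, S.U_mul, S.U_J, S.U.apply_symm_apply, hag]
  change n x = S.J (S.Jc n (S.J x))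
  rw [Jc_apply, S.JJ, S.JJ]

theorem U_orb {G : S.Sub} {v : H} (hv : v ∈ orb S.Ω G.F) :
    S.U v ∈ orb S.Ω G.F ∧ S.U.symm v ∈ orb S.Ω G.F := by
  obtain ⟨f, hf, rfl⟩ := hv
  refine ⟨⟨_, (G.map_eq ⟨f, G.le f hf⟩).1 hf, (S.U_apply (G.le f hf)).symm⟩, ?_⟩
  set g : S.A.toStarSubalgebra := S.α.symm ⟨f, G.le _ hf⟩ with hg
  have hag : S.α g = ⟨f, G.le _ hf⟩ := by rw [hg]; simp
  have hg' : (g : H →L[ℂ] H) ∈ G.F := (G.map_eq g).2 (by rw [hag]; exact hf)
  refine ⟨g, hg', ?_⟩
  apply S.U.injective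
  rw [S.U.apply_symm_apply, S.U_spec, hag]

theorem U_e (G : S.Sub) (x : H) : S.U (S.e G x) = S.e G (S.U x) := by
  rw [e_eq]
  refine (proj_eq_of ?_ fun v hv => ?_).symm
  · have := (Set.MapsTo.closure (s := (orb S.Ω G.F : Set H)) (t := (orb S.Ω G.F : Set H))
      (f := S.U) (fun v hv => (S.U_orb hv).1) S.U.continuous)
    exact this (proj_mem _ x)
  · rw [← map_sub, ← S.U.apply_symm_apply v, S.U.inner_map_map]
    exact sub_proj_inner x ((orb S.Ω G.F).le_topologicalClosure (S.U_orb hv).2)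

theorem U_symm_e (G : S.Sub) (x : H) : S.U.symm (S.e G x) = S.e G (S.U.symm x) := by
  apply S.U.injective
  rw [S.U.apply_symm_apply, S.U_e, S.U.apply_symm_apply]

theorem e_comm {G : S.Sub} {n : H →L[ℂ] H} (hn : n ∈ S.Nc G.F) (x : H) :
    n (S.e G x) = S.e G (n x) := by
  have := proj_comm _ n (S.Nc_orb G.le hn) (S.Nc_orb G.le (star_mem hn))
  rw [e_eq]
  exact congrArg (fun L : H →L[ℂ] H => L x) this

theorem e_mem_comm (G : S.Sub) : S.e G ∈ (S.Nc G.F).commutant :=
  VonNeumannAlgebra.mem_commutant_iff.2 fun g hg => by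
    ext x
    exact S.e_comm hg x

theorem key (hg : P_graph.{u}) (hz : P_zorn.{u}) (hsup : P_super.{u}) (hsub : P_sub.{u})
    (F G : S.Sub) (hFG : ∀ f ∈ F.F, f ∈ G.F) {τF τG : (H →L[ℂ] H) → ℝ≥0∞}
    (hF : S.IsMuBar F τF) (hG : S.IsMuBar G τG) (V : Submodule ℂ H) (hV : S.UModule F τF V) :
    ∃ W, S.UModule G τG W ∧ ∀ v ∈ V, v - S.e G v ∈ W := by
  have hN : ∀ n ∈ S.Nc F.F, n ∈ S.Nc G.F := fun n hn => hFG _ hn
  have hVinv : ∀ n ∈ S.Nc F.F, ∀ v ∈ V, n v ∈ V := by
    intro n hn v hv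
    have := hV.mod.2 (star (S.Jc n)) (star_mem hn) v hv
    rw [star_star, Jc_apply, S.JJ, S.JJ] at this
    exact this
  obtain ⟨I, hI1, hI2, hI3⟩ := hz H (S.Nc F.F) V hV.mod.1 hVinv
  set I' : Set H := (fun x => x - S.e G x) '' I with hI'
  set K : Submodule ℂ H := ⨆ x ∈ I', orb x (S.Nc G.F) with hK
  -- `n (v - e v) ∈ W`
  have hmem : ∀ n ∈ S.Nc G.F, ∀ v ∈ V, n (v - S.e G v) ∈ K.topologicalClosure := by
    intro n hn v hv
    have hmap := (Set.MapsTo.closure (s := ((⨆ x ∈ I, orb x (S.Nc F.F) : Submodule ℂ H) : Set H))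
      (t := (K : Set H)) (f := fun v => n (v - S.e G v))
      (by
        have : (⨆ x ∈ I, orb x (S.Nc F.F) : Submodule ℂ H) ≤
            K.comap ((n * (1 - S.e G) : H →L[ℂ] H) : H →ₗ[ℂ] H) := by
          refine iSup₂_le fun x hx => ?_
          rintro _ ⟨m, hm, rfl⟩
          have h1 : n (m x - S.e G (m x)) = (n * m) (x - S.e G x) := by
            rw [← S.e_comm (hN m hm), ← map_sub]
            rfl
          have h2 : (n * m) (x - S.e G x) ∈ K :=
            (le_iSup₂_of_le (x - S.e G x) ⟨x, hx, rfl⟩ le_rfl :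
              orb (x - S.e G x) (S.Nc G.F) ≤ K) ⟨n * m, mul_mem hn (hN m hm), rfl⟩
          rw [← h1] at h2
          exact h2
        intro v hv
        exact this hv) (by fun_prop))
    exact hmap (hI3 hv)
  refine ⟨K.topologicalClosure, ⟨⟨Submodule.isClosed_topologicalClosure _, ?_⟩, ?_, ?_, ?_⟩,
    fun v hv => hmem 1 (one_mem _) v hv⟩
  · -- right module
    intro f hf v hv
    have hn : S.Jc (star f) ∈ S.Nc G.F := S.Jc_mem_Nc (star_mem hf)
    refine map_closure_mem (S.Jc (star f)) ?_ hv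
    have : K ≤ K.comap ((S.Jc (star f) : H →L[ℂ] H) : H →ₗ[ℂ] H) := by
      refine iSup₂_le fun x hx => ?_
      rintro _ ⟨m, hm, rfl⟩
      exact (le_iSup₂_of_le x hx le_rfl : orb x (S.Nc G.F) ≤ K) ⟨_, mul_mem hn hm, rfl⟩
    intro v hv
    exact this hv
  · -- orthogonal to `H_G`
    refine Submodule.topologicalClosure_minimal _ ?_ (Submodule.isClosed_orthogonal _)
    refine iSup₂_le ?_
    rintro _ ⟨x, hx, rfl⟩
    rintro _ ⟨m, hm, rfl⟩
    rw [map_sub, S.e_comm hm, e_eq, Submodule.mem_orthogonal]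
    intro w hw
    exact sub_proj_inner _ hw
  · -- `U W = W`
    have hVU : ∀ v ∈ V, S.U v ∈ V := by
      intro v hv
      rw [← hV.inv]
      exact ⟨v, hv, rfl⟩
    have hVU' : ∀ v ∈ V, S.U.symm v ∈ V := by
      intro v hv
      rw [← hV.inv] at hv
      obtain ⟨w, hw, rfl⟩ := hv
      have : S.U.symm (S.U w) = w := S.U.symm_apply_apply w
      change S.U.symm (S.U w) ∈ V
      rw [this]; exact hw
    have hU1 : ∀ w ∈ K.topologicalClosure, S.U w ∈ K.topologicalClosure := by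
      intro w hw
      have h1 : K ≤ K.topologicalClosure.comap (S.U.toLinearEquiv : H →ₗ[ℂ] H) := by
        refine iSup₂_le ?_
        rintro _ ⟨x, hx, rfl⟩
        rintro _ ⟨m, hm, rfl⟩
        obtain ⟨m', hm', hmm⟩ := S.U_Nc hm
        change S.U (m (x - S.e G x)) ∈ K.topologicalClosure
        rw [hmm, map_sub, S.U_e]
        exact hmem m' hm' _ (hVU x (hI1 x hx))
      have h2 := (Set.MapsTo.closure (s := (K : Set H)) (t := (K.topologicalClosure : Set H))
        (f := S.U) (fun v hv => h1 hv) S.U.continuous)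
      have h3 := h2 hw
      rwa [(Submodule.isClosed_topologicalClosure K).closure_eq] at h3
    have hU2 : ∀ w ∈ K.topologicalClosure, S.U.symm w ∈ K.topologicalClosure := by
      intro w hw
      have h1 : K ≤ K.topologicalClosure.comap (S.U.symm.toLinearEquiv : H →ₗ[ℂ] H) := by
        refine iSup₂_le ?_
        rintro _ ⟨x, hx, rfl⟩
        rintro _ ⟨m, hm, rfl⟩
        obtain ⟨m', hm', hmm⟩ := S.U_symm_Nc hm
        change S.U.symm (m (x - S.e G x)) ∈ K.topologicalClosure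
        rw [hmm, map_sub, S.U_symm_e]
        exact hmem m' hm' _ (hVU' x (hI1 x hx))
      have h2 := (Set.MapsTo.closure (s := (K : Set H)) (t := (K.topologicalClosure : Set H))
        (f := S.U.symm) (fun v hv => h1 hv) S.U.symm.continuous)
      have h3 := h2 hw
      rwa [(Submodule.isClosed_topologicalClosure K).closure_eq] at h3
    apply le_antisymm
    · rintro _ ⟨w, hw, rfl⟩
      exact hU1 w hw
    · intro w hw
      exact ⟨S.U.symm w, hU2 w hw, S.U.apply_symm_apply w⟩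
  · -- finiteness
    rw [proj_closure]
    refine lt_of_le_of_lt ?_ hV.finite
    refine hsub H (S.Nc G.F) τG ?_ I' _ ?_
    · rw [← S.basic_eq]; exact hG.trace
    intro s hs
    choose! c hc1 hc2 using hs
    have hinj : ∀ y ∈ s, ∀ y' ∈ s, c y = c y' → y = y' := by
      intro y hy y' hy' h
      rw [← hc2 y hy, ← hc2 y' hy', h]
    classical
    have hsum : ∑ x ∈ s.image c, τF (proj (orb x (S.Nc F.F))) ≤ τF (proj V) := by
      refine hsup H (S.Nc F.F) τF ?_ V hV.mod.1 hVinv _ ?_ ?_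
      · rw [← S.basic_eq]; exact hF.trace
      · intro x hx
        obtain ⟨y, hy, rfl⟩ := Finset.mem_image.1 hx
        exact hI1 _ (hc1 y hy)
      · intro x hx x' hx' hne n hn
        obtain ⟨y, hy, rfl⟩ := Finset.mem_image.1 hx
        obtain ⟨y', hy', rfl⟩ := Finset.mem_image.1 hx'
        exact hI2 _ (hc1 y hy) _ (hc1 y' hy') hne n hn
    rw [Finset.sum_image (fun y hy y' hy' h => hinj y hy y' hy' h)] at hsum
    refine le_trans (Finset.sum_le_sum fun y hy => ?_) hsum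
    rw [S.cyc hg G hG, S.cyc hg F hF]
    refine ENNReal.ofReal_le_ofReal ?_
    refine pow_le_pow_left₀ (norm_nonneg _) (proj_mono_apply ?_ _) 2
    rintro _ ⟨m, hm, rfl⟩
    refine ⟨m * (1 - S.e G), ?_, ?_⟩
    · refine VonNeumannAlgebra.mem_commutant_iff.2 fun n hn => ?_
      exact VonNeumannAlgebra.mem_commutant_iff.1
        (mul_mem hm (sub_mem (one_mem _) (S.e_mem_comm G))) n (hN n hn)
    · have : c y - S.e G (c y) = y := hc2 y hy
      change m (c y - S.e G (c y)) = m y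
      rw [this]

end Sys

theorem main (hg : P_graph.{u}) (hz : P_zorn.{u}) (hsup : P_super.{u}) (hsub : P_sub.{u}) :
    P_main.{u} := by
  intro H _ _ _ S F G hFG τF τG hF hG hiso
  have hHF : S.HF F ≤ S.HF G := by
    refine Submodule.topologicalClosure_mono ?_
    rintro _ ⟨f, hf, rfl⟩
    exact ⟨f, hFG f hf, rfl⟩
  apply le_antisymm
  · refine Submodule.topologicalClosure_minimal _ ?_ (Submodule.isClosed_orthogonal _)
    exact sSup_le fun V hV => hV.perp
  · intro y hy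
    have hyF : y ∈ S.E F τF := by
      rw [hiso]
      exact Submodule.orthogonal_le hHF hy
    have hey : S.e G y = 0 := by
      rw [S.e_eq]
      refine proj_eq_of (Submodule.zero_mem _) fun v hv => ?_
      rw [sub_zero]
      exact (Submodule.mem_orthogonal _ _).1 hy v ((orb S.Ω G.F).le_topologicalClosure hv)
    have hmap := (Set.MapsTo.closure
      (s := ((sSup {V : Submodule ℂ H | S.UModule F τF V} : Submodule ℂ H) : Set H))
      (t := ((sSup {V : Submodule ℂ H | S.UModule G τG V} : Submodule ℂ H) : Set H))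
      (f := fun v => v - S.e G v)
      (by
        have : (sSup {V : Submodule ℂ H | S.UModule F τF V} : Submodule ℂ H) ≤
            (sSup {V : Submodule ℂ H | S.UModule G τG V} : Submodule ℂ H).comap
              ((1 - S.e G : H →L[ℂ] H) : H →ₗ[ℂ] H) := by
          refine sSup_le fun V hV v hv => ?_
          obtain ⟨W, hW, hWV⟩ := S.key hg hz hsup hsub F G hFG hF hG V hV
          exact (le_sSup hW : W ≤ _) (hWV v hv)
        intro v hv
        exact this hv) (by fun_prop))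
    have := hmap hyF
    simp only [hey, sub_zero] at this
    exact this

end Pool.Agent.Q12.Iso
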