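import Pool.Agent.Q12.Iso.Def

/-!
# The modular conjugation of a trace and the commutation theorem
-/

namespace Pool.Agent.Q12.Iso

open scoped InnerProductSpace ComplexOrder ENNReal NNReal

universe u

variable {H : Type u} [NormedAddCommGroup H] [InnerProductSpace ℂ H] [CompleteSpace H]

/-! ### Projections -/

theorem proj_isStarProjection (V : Submodule ℂ H) : IsStarProjection (proj V) :=
  isStarProjection_starProjection

theorem range_proj (V : Submodule ℂ H) : (proj V).range = V.topologicalClosure :=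
  Submodule.range_starProjection _

theorem proj_mem (V : Submodule ℂ H) (x : H) : proj V x ∈ V.topologicalClosure :=
  Submodule.starProjection_apply_mem _ x

theorem proj_eq_self_iff {V : Submodule ℂ H} {x : H} : proj V x = x ↔ x ∈ V.topologicalClosure :=
  Submodule.starProjection_eq_self_iff

theorem proj_eq_of {V : Submodule ℂ H} {x y : H} (h1 : y ∈ V.topologicalClosure)
    (h2 : ∀ v ∈ V, ⟪v, x - y⟫_ℂ = 0) : proj V x = y := by
  refine Submodule.eq_starProjection_of_mem_orthogonal h1 ?_ 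
  rw [Submodule.orthogonal_closure]
  exact (Submodule.mem_orthogonal _ _).2 h2

theorem sub_proj_inner {V : Submodule ℂ H} (x : H) {v : H} (hv : v ∈ V.topologicalClosure) :
    ⟪v, x - proj V x⟫_ℂ = 0 :=
  (Submodule.mem_orthogonal _ _).1 (Submodule.sub_starProjection_mem_orthogonal x) v hv

theorem proj_star (V : Submodule ℂ H) : star (proj V) = proj V :=
  (proj_isStarProjection V).isSelfAdjoint.star_eq

theorem proj_mul_self (V : Submodule ℂ H) : proj V * proj V = proj V :=
  (proj_isStarProjection V).isIdempotentElem.eq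

theorem inner_star (a : H →L[ℂ] H) (x y : H) : ⟪(star a) x, y⟫_ℂ = ⟪x, a y⟫_ℂ := by
  rw [ContinuousLinearMap.star_eq_adjoint, ContinuousLinearMap.adjoint_inner_left]

theorem inner_star' (a : H →L[ℂ] H) (x y : H) : ⟪x, (star a) y⟫_ℂ = ⟪a x, y⟫_ℂ := by
  rw [ContinuousLinearMap.star_eq_adjoint, ContinuousLinearMap.adjoint_inner_right]

omit [CompleteSpace H] in
theorem map_closure_mem {V : Submodule ℂ H} (n : H →L[ℂ] H) (h1 : ∀ v ∈ V, n v ∈ V) {x : H}
    (hx : x ∈ V.topologicalClosure) : n x ∈ V.topologicalClosure := by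
  have := (Set.MapsTo.closure (s := (V : Set H)) (t := (V : Set H)) (f := n)
    (fun v hv => h1 v hv) n.continuous)
  exact this hx

theorem proj_comm (V : Submodule ℂ H) (n : H →L[ℂ] H) (h1 : ∀ v ∈ V, n v ∈ V)
    (h2 : ∀ v ∈ V, (star n) v ∈ V) : n * proj V = proj V * n := by
  ext x
  refine (proj_eq_of (map_closure_mem n h1 (proj_mem V x)) fun v hv => ?_).symm
  have e : n x - n (proj V x) = n (x - proj V x) := by rw [map_sub]
  change ⟪v, n x - n (proj V x)⟫_ℂ = 0
  rw [e, ← inner_star]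
  exact sub_proj_inner x (V.le_topologicalClosure (h2 v hv))

theorem proj_closure (V : Submodule ℂ H) : proj V.topologicalClosure = proj V := by
  ext x
  refine proj_eq_of ?_ fun v hv => sub_proj_inner x hv
  exact V.topologicalClosure.le_topologicalClosure (proj_mem V x)

theorem proj_mono_apply {V W : Submodule ℂ H} (h : V ≤ W) (x : H) : ‖proj V x‖ ≤ ‖proj W x‖ := by
  have h1 : proj V x = proj V (proj W x) := by
    refine proj_eq_of (proj_mem _ _) fun v hv => ?_
    have e : x - proj V (proj W x) = (x - proj W x) + (proj W x - proj V (proj W x)) := by abel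
    rw [e, inner_add_right, sub_proj_inner x (W.le_topologicalClosure (h hv)),
      sub_proj_inner (proj W x) (V.le_topologicalClosure hv), add_zero]
  rw [h1]
  exact Submodule.norm_starProjection_apply_le _ _

/-! ### `J` -/

namespace Sys

variable (S : Sys H)

theorem ext_A {T R : H →L[ℂ] H} (h : ∀ c ∈ S.A, T (c S.Ω) = R (c S.Ω)) : T = R := by
  have h' : (T : H → H) = R := by
    refine Continuous.ext_on S.cyclic T.continuous R.continuous ?_
    rintro _ ⟨a, ha, rfl⟩
    exact h a ha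
  exact DFunLike.coe_injective h'

theorem J_apply {a : H →L[ℂ] H} (ha : a ∈ S.A) : S.J (a S.Ω) = (star a) S.Ω := S.J_spec ⟨a, ha⟩

theorem J_Ω : S.J S.Ω = S.Ω := by
  have := S.J_apply (one_mem S.A)
  simpa using this

theorem JJ (x : H) : S.J (S.J x) = x := by
  have h : (fun x => S.J (S.J x)) = id := by
    refine Continuous.ext_on S.cyclic (S.J.continuous.comp S.J.continuous) continuous_id ?_
    rintro _ ⟨a, ha, rfl⟩
    simp [S.J_apply ha, S.J_apply (star_mem ha)]
  exact congrFun h x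

theorem inner_JJ (x y : H) : ⟪S.J x, S.J y⟫_ℂ = ⟪y, x⟫_ℂ := by
  have h1 : ∀ b ∈ S.A, ∀ x, ⟪S.J x, S.J (b S.Ω)⟫_ℂ = ⟪b S.Ω, x⟫_ℂ := by
    intro b hb x
    have h : (fun x => ⟪S.J x, S.J (b S.Ω)⟫_ℂ) = fun x => ⟪b S.Ω, x⟫_ℂ := by
      refine Continuous.ext_on S.cyclic ?_ ?_ ?_
      · exact (S.J.continuous).inner continuous_const
      · exact continuous_const.inner continuous_id
      rintro _ ⟨a, ha, rfl⟩
      simp only
      rw [S.J_apply ha, S.J_apply hb, inner_star, ← inner_star' b]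
      exact S.tracial a ha (star b) (star_mem hb)
    exact congrFun h x
  have h : (fun y => ⟪S.J x, S.J y⟫_ℂ) = fun y => ⟪y, x⟫_ℂ := by
    refine Continuous.ext_on S.cyclic ?_ ?_ ?_
    · exact continuous_const.inner S.J.continuous
    · exact continuous_id.inner continuous_const
    rintro _ ⟨a, ha, rfl⟩
    exact h1 a ha x
  exact congrFun h y

theorem inner_J_left (x y : H) : ⟪S.J x, y⟫_ℂ = ⟪S.J y, x⟫_ℂ := by
  conv_lhs => rw [← S.JJ y]
  rw [S.inner_JJ]

theorem inner_J_right (x y : H) : ⟪x, S.J y⟫_ℂ = ⟪y, S.J x⟫_ℂ := by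
  conv_lhs => rw [← S.JJ x]
  rw [S.inner_JJ]

/-- `T ↦ J T J`. -/
noncomputable def Jc (T : H →L[ℂ] H) : H →L[ℂ] H :=
  ((S.J.toContinuousLinearEquiv : H →SL[starRingEnd ℂ] H).comp T).comp
    (S.J.toContinuousLinearEquiv : H →SL[starRingEnd ℂ] H)

@[simp] theorem Jc_apply (T : H →L[ℂ] H) (x : H) : S.Jc T x = S.J (T (S.J x)) := rfl

@[simp] theorem Jc_Jc (T : H →L[ℂ] H) : S.Jc (S.Jc T) = T := by
  ext x; simp [S.JJ]

theorem Jc_mul (T R : H →L[ℂ] H) : S.Jc (T * R) = S.Jc T * S.Jc R := by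
  ext x; simp [S.JJ]

theorem Jc_add (T R : H →L[ℂ] H) : S.Jc (T + R) = S.Jc T + S.Jc R := by
  ext x; simp

theorem Jc_one : S.Jc 1 = 1 := by
  ext x; simp [S.JJ]

theorem Jc_zero : S.Jc 0 = 0 := by
  ext x; simp

theorem Jc_smul (c : ℂ) (T : H →L[ℂ] H) : S.Jc (c • T) = (starRingEnd ℂ c) • S.Jc T := by
  ext x; simp [map_smulₛₗ]

theorem Jc_star (T : H →L[ℂ] H) : S.Jc (star T) = star (S.Jc T) := by
  ext x
  refine ext_inner_right ℂ fun y => ?_
  rw [inner_star, Jc_apply, Jc_apply, S.inner_J_left, inner_star', S.inner_J_right]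

theorem Jc_inj {T R : H →L[ℂ] H} (h : S.Jc T = S.Jc R) : T = R := by
  rw [← S.Jc_Jc T, h, S.Jc_Jc]

/-- `J A J` commutes with `A`. -/
theorem Jc_comm {a b : H →L[ℂ] H} (ha : a ∈ S.A) (hb : b ∈ S.A) :
    b * S.Jc a = S.Jc a * b := by
  refine S.ext_A fun c hc => ?_
  have h1 : S.Jc a (c S.Ω) = (c * star a) S.Ω := by
    rw [Jc_apply, S.J_apply hc]
    have := S.J_apply (mul_mem ha (star_mem hc))
    simpa using this
  have h2 : S.Jc a ((b * c) S.Ω) = (b * c * star a) S.Ω := by
    rw [Jc_apply, S.J_apply (mul_mem hb hc)]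
    have := S.J_apply (mul_mem ha (star_mem (mul_mem hb hc)))
    simpa using this
  calc (b * S.Jc a) (c S.Ω) = b (S.Jc a (c S.Ω)) := rfl
    _ = b ((c * star a) S.Ω) := by rw [h1]
    _ = (b * c * star a) S.Ω := rfl
    _ = S.Jc a ((b * c) S.Ω) := h2.symm
    _ = _ := rfl

/-- `J T Ω = T* Ω` for `T ∈ A'`. -/
theorem J_apply_comm {T : H →L[ℂ] H} (hT : ∀ a ∈ S.A, a * T = T * a) :
    S.J (T S.Ω) = (star T) S.Ω := by
  have h : (fun y => ⟪y, S.J (T S.Ω)⟫_ℂ) = fun y => ⟪y, (star T) S.Ω⟫_ℂ := by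
    refine Continuous.ext_on S.cyclic ?_ ?_ ?_
    · exact continuous_id.inner continuous_const
    · exact continuous_id.inner continuous_const
    rintro _ ⟨a, ha, rfl⟩
    simp only
    rw [S.inner_J_right, S.J_apply ha, inner_star' T, inner_star']
    have := congrArg (fun L : H →L[ℂ] H => L S.Ω) (hT a ha)
    simpa using congrArg (fun z => ⟪z, S.Ω⟫_ℂ) this
  exact ext_inner_left ℂ fun y => congrFun h y

/-- The commutation theorem for a trace: `J A' J ⊆ A`. -/
theorem Jc_mem {T : H →L[ℂ] H} (hT : ∀ a ∈ S.A, a * T = T * a) : S.Jc T ∈ S.A := by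
  have key : S.Jc T ∈ Set.centralizer (Set.centralizer (S.A : Set (H →L[ℂ] H))) := by
    intro R hR
    have hR' : ∀ a ∈ S.A, a * R = R * a := fun a ha => hR a ha
    have hTs : ∀ a ∈ S.A, a * star T = star T * a := by
      intro a ha
      have := hT (star a) (star_mem ha)
      have := congrArg star this
      simpa using this.symm
    -- `J T J R Ω = R (T* Ω)`
    have h1 : ∀ R : H →L[ℂ] H, (∀ a ∈ S.A, a * R = R * a) → S.Jc T (R S.Ω) = R ((star T) S.Ω) := by
      intro R hR
      have hRs : ∀ a ∈ S.A, a * star R = star R * a := by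
        intro a ha
        have := hR (star a) (star_mem ha)
        have := congrArg star this
        simpa using this.symm
      rw [Jc_apply, S.J_apply_comm hR]
      have h2 : ∀ a ∈ S.A, a * (T * star R) = (T * star R) * a := by
        intro a ha
        rw [← mul_assoc, hT a ha, mul_assoc, hRs a ha, ← mul_assoc]
      have := S.J_apply_comm h2
      simpa using this
    refine S.ext_A fun c hc => ?_
    -- `c Ω = (J c* J) Ω`
    have hc' : c S.Ω = S.Jc (star c) S.Ω := by
      rw [Jc_apply, S.J_Ω, S.J_apply (star_mem hc), star_star]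
    have hcc : ∀ a ∈ S.A, a * S.Jc (star c) = S.Jc (star c) * a :=
      fun a ha => S.Jc_comm (star_mem hc) ha
    have hRc : ∀ a ∈ S.A, a * (R * S.Jc (star c)) = (R * S.Jc (star c)) * a := by
      intro a ha
      rw [← mul_assoc, hR' a ha, mul_assoc, hcc a ha, ← mul_assoc]
    have e1 := h1 _ hcc
    have e2 := h1 _ hRc
    rw [hc']
    calc (R * S.Jc T) (S.Jc (star c) S.Ω) = R (S.Jc T (S.Jc (star c) S.Ω)) := rfl
      _ = R (S.Jc (star c) ((star T) S.Ω)) := by rw [e1]
      _ = S.Jc T ((R * S.Jc (star c)) S.Ω) := e2.symm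
      _ = _ := rfl
  rw [S.A.centralizer_centralizer] at key
  exact key

theorem mem_of_HF_aux {F : VonNeumannAlgebra H} (hF : ∀ f ∈ F, f ∈ S.A) {a : H →L[ℂ] H}
    (ha : a ∈ S.A) (h : a S.Ω ∈ (orb S.Ω F).topologicalClosure) : a ∈ F := by
  have key : a ∈ Set.centralizer (Set.centralizer (F : Set (H →L[ℂ] H))) := by
    intro T hT
    have hT' : ∀ f ∈ F, f * T = T * f := fun f hf => hT f hf
    refine S.ext_A fun b hb => ?_
    refine ext_inner_right ℂ fun y => ?_
    -- density in `y`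
    suffices hy : ∀ c ∈ S.A, ⟪(T * a) (b S.Ω), c S.Ω⟫_ℂ = ⟪(a * T) (b S.Ω), c S.Ω⟫_ℂ by
      have h : (fun y => ⟪(T * a) (b S.Ω), y⟫_ℂ) = fun y => ⟪(a * T) (b S.Ω), y⟫_ℂ := by
        refine Continuous.ext_on S.cyclic ?_ ?_ ?_
        · exact continuous_const.inner continuous_id
        · exact continuous_const.inner continuous_id
        rintro _ ⟨a, ha, rfl⟩
        exact hy a ha
      exact congrFun h y
    intro c hc
    -- replace `b Ω`, `c Ω` by `b' Ω`, `c' Ω`
    have hcomm : ∀ d ∈ S.A, ∀ x ∈ S.A, x * S.Jc (star d) = S.Jc (star d) * x :=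
      fun d hd x hx => S.Jc_comm (star_mem hd) hx
    have hd' : ∀ d ∈ S.A, d S.Ω = S.Jc (star d) S.Ω := fun d hd => by
      rw [Jc_apply, S.J_Ω, S.J_apply (star_mem hd), star_star]
    set b' := S.Jc (star b) with hb'
    set c' := S.Jc (star c) with hc'
    rw [hd' b hb, hd' c hc, ← hb', ← hc']
    have cont : ∀ x ∈ (orb S.Ω F).topologicalClosure,
        ⟪T (b' x), c' S.Ω⟫_ℂ = ⟪T (b' S.Ω), c' (S.J x)⟫_ℂ := by
      have hsub : ((orb S.Ω F).topologicalClosure : Set H) ⊆
          {x | ⟪T (b' x), c' S.Ω⟫_ℂ = ⟪T (b' S.Ω), c' (S.J x)⟫_ℂ} := by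
        rw [Submodule.topologicalClosure_coe]
        refine closure_minimal ?_ (isClosed_eq ?_ ?_)
        · rintro _ ⟨f, hf, rfl⟩
          have hfA := hF f hf
          have e1 : T (b' (f S.Ω)) = f (T (b' S.Ω)) := by
            have h1 : b' (f S.Ω) = f (b' S.Ω) :=
              (congrArg (fun L : H →L[ℂ] H => L S.Ω) (hcomm b hb f hfA)).symm
            have h2 : T (f (b' S.Ω)) = f (T (b' S.Ω)) :=
              (congrArg (fun L : H →L[ℂ] H => L (b' S.Ω)) (hT' f hf)).symm
            rw [h1, h2]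
          have e2 : c' (S.J (f S.Ω)) = (star f) (c' S.Ω) := by
            rw [S.J_apply hfA]
            exact (congrArg (fun L : H →L[ℂ] H => L S.Ω) (hcomm c hc (star f) (star_mem hfA))).symm
          change ⟪T (b' (f S.Ω)), c' S.Ω⟫_ℂ = ⟪T (b' S.Ω), c' (S.J (f S.Ω))⟫_ℂ
          rw [e1, e2, inner_star']
        · fun_prop
        · fun_prop
      exact fun x hx => hsub hx
    have h1 := cont _ h
    have e1 : b' (a S.Ω) = a (b' S.Ω) :=
      (congrArg (fun L : H →L[ℂ] H => L S.Ω) (hcomm b hb a ha)).symm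
    have e2 : c' (S.J (a S.Ω)) = (star a) (c' S.Ω) := by
      rw [S.J_apply ha]
      exact (congrArg (fun L : H →L[ℂ] H => L S.Ω) (hcomm c hc (star a) (star_mem ha))).symm
    rw [e1, e2, inner_star'] at h1
    exact h1
  rw [F.centralizer_centralizer] at key
  exact key

/-! ### The algebra `J F J` and the basic construction -/

/-- The von Neumann algebra `J F J`. -/
noncomputable def Nc (F : VonNeumannAlgebra H) : VonNeumannAlgebra H where
  carrier := {T | S.Jc T ∈ F}
  mul_mem' := by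
    intro a b ha hb
    change S.Jc (a * b) ∈ F
    rw [S.Jc_mul]; exact mul_mem ha hb
  one_mem' := by
    change S.Jc 1 ∈ F
    rw [S.Jc_one]; exact one_mem F
  add_mem' := by
    intro a b ha hb
    change S.Jc (a + b) ∈ F
    rw [S.Jc_add]; exact add_mem ha hb
  zero_mem' := by
    change S.Jc 0 ∈ F
    rw [S.Jc_zero]; exact zero_mem F
  algebraMap_mem' := by
    intro r
    change S.Jc (algebraMap ℂ (H →L[ℂ] H) r) ∈ F
    rw [Algebra.algebraMap_eq_smul_one, S.Jc_smul, S.Jc_one]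
    exact F.toStarSubalgebra.smul_mem (one_mem F) _
  star_mem' := by
    intro a ha
    change S.Jc (star a) ∈ F
    rw [S.Jc_star]; exact star_mem ha
  centralizer_centralizer' := by
    have key : ∀ X : Set (H →L[ℂ] H),
        Set.centralizer {T | S.Jc T ∈ X} = {T | S.Jc T ∈ Set.centralizer X} := by
      intro X
      ext T
      constructor
      · intro hT R hR
        have := hT (S.Jc R) (by simpa using hR)
        have := congrArg S.Jc this
        rwa [S.Jc_mul, S.Jc_mul, S.Jc_Jc] at this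
      · intro hT R hR
        apply S.Jc_inj
        rw [S.Jc_mul, S.Jc_mul]
        exact hT _ hR
    change Set.centralizer (Set.centralizer {T | S.Jc T ∈ (F : Set (H →L[ℂ] H))}) = _
    rw [key, key, F.centralizer_centralizer]
    rfl

theorem mem_Nc {F : VonNeumannAlgebra H} {T : H →L[ℂ] H} : T ∈ S.Nc F ↔ S.Jc T ∈ F := Iff.rfl

theorem Jc_mem_Nc {F : VonNeumannAlgebra H} {f : H →L[ℂ] H} (hf : f ∈ F) : S.Jc f ∈ S.Nc F := by
  rw [mem_Nc, S.Jc_Jc]; exact hf

theorem e_eq (F : S.Sub) : S.e F = proj (orb S.Ω F.F) := proj_closure _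

theorem J_mem_HF {F : VonNeumannAlgebra H} (hF : ∀ f ∈ F, f ∈ S.A) {x : H}
    (hx : x ∈ (orb S.Ω F).topologicalClosure) : S.J x ∈ (orb S.Ω F).topologicalClosure := by
  have := (Set.MapsTo.closure (s := (orb S.Ω F : Set H)) (t := (orb S.Ω F : Set H)) (f := S.J)
    (by
      rintro _ ⟨f, hf, rfl⟩
      exact ⟨star f, star_mem hf, (S.J_apply (hF f hf)).symm⟩) S.J.continuous)
  exact this hx

theorem Nc_orb {F : VonNeumannAlgebra H} (hF : ∀ f ∈ F, f ∈ S.A) {T : H →L[ℂ] H}
    (hT : T ∈ S.Nc F) : ∀ v ∈ orb S.Ω F, T v ∈ orb S.Ω F := by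
  rintro _ ⟨f, hf, rfl⟩
  refine ⟨f * star (S.Jc T), mul_mem hf (star_mem hT), ?_⟩
  have h1 : T (f S.Ω) = S.Jc (S.Jc T) (f S.Ω) := by rw [S.Jc_Jc]
  rw [h1, Jc_apply, S.J_apply (hF f hf)]
  have := S.J_apply (mul_mem (hF _ hT) (star_mem (hF f hf)))
  simpa using this.symm

theorem orb_self (x : H) (F : VonNeumannAlgebra H) : x ∈ orb x F := ⟨1, one_mem F, rfl⟩

theorem basic_eq (F : S.Sub) : S.basic F = ((S.Nc F.F).commutant : Set (H →L[ℂ] H)) := by
  rw [VonNeumannAlgebra.coe_commutant]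
  unfold basic
  congr 1
  ext T
  constructor
  · intro hT
    have hT' : ∀ a ∈ S.A, a * T = T * a := fun a ha => hT a (Or.inl ha)
    have hTe : S.e F * T = T * S.e F := hT _ (Or.inr rfl)
    have h1 : S.Jc T ∈ S.A := S.Jc_mem hT'
    refine S.mem_of_HF_aux F.le h1 ?_
    rw [Jc_apply, S.J_Ω]
    refine S.J_mem_HF F.le ?_
    have h2 : S.e F S.Ω = S.Ω := by
      rw [e_eq, proj_eq_self_iff]
      exact (orb S.Ω F.F).le_topologicalClosure (orb_self _ _)
    have h3 : T S.Ω = S.e F (T S.Ω) := by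
      have := congrArg (fun L : H →L[ℂ] H => L S.Ω) hTe
      change S.e F (T S.Ω) = T (S.e F S.Ω) at this
      rw [this, h2]
    rw [h3, e_eq]
    exact proj_mem _ _
  · intro hT
    have hT' : T ∈ S.Nc F.F := hT
    rintro R (hR | hR)
    · have := S.Jc_comm (F.le _ hT') hR
      rwa [S.Jc_Jc] at this
    · rw [Set.mem_singleton_iff] at hR
      rw [hR, e_eq]
      exact (proj_comm _ T (S.Nc_orb F.le hT') (S.Nc_orb F.le (star_mem hT'))).symm

end Sys

end Pool.Agent.Q12.Iso
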