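import Pool.Agent.Q12.Iso.Stm
import Pool.Agent.Q12.Iso.Tom

/-!
# The trace of a cyclic submodule

`μ̄([JFJ x]) = ‖[(JFJ)' x] Ω‖²` (the coupling theorem of Murray and von Neumann).
-/

namespace Pool.Agent.Q12.Iso

open scoped InnerProductSpace ComplexOrder ENNReal NNReal

universe u

variable {H : Type u} [NormedAddCommGroup H] [InnerProductSpace ℂ H] [CompleteSpace H]

namespace Sys

variable (S : Sys H)

theorem orb_inv {x : H} {N : VonNeumannAlgebra H} {n : H →L[ℂ] H} (hn : n ∈ N) :
    ∀ v ∈ orb x N, n v ∈ orb x N := by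
  rintro _ ⟨m, hm, rfl⟩
  exact ⟨n * m, mul_mem hn hm, rfl⟩

theorem proj_orb_comm (x : H) {N : VonNeumannAlgebra H} {n : H →L[ℂ] H} (hn : n ∈ N) :
    n * proj (orb x N) = proj (orb x N) * n :=
  proj_comm _ n (orb_inv hn) (orb_inv (star_mem hn))

theorem proj_orb_mem (x : H) (N : VonNeumannAlgebra H) : proj (orb x N) ∈ N.commutant :=
  VonNeumannAlgebra.mem_commutant_iff.2 fun _ hg => proj_orb_comm x hg

/-- `J ν Ω = ν* Ω` for `ν ∈ J F J`. -/
theorem J_Nc {F : VonNeumannAlgebra H} (hF : ∀ f ∈ F, f ∈ S.A) {n : H →L[ℂ] H}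
    (hn : n ∈ S.Nc F) : S.J (n S.Ω) = (star n) S.Ω := by
  have h1 : n S.Ω = S.J (S.Jc n S.Ω) := by rw [Jc_apply, S.J_Ω, S.JJ]
  have h2 : (star n) S.Ω = S.J (S.Jc (star n) S.Ω) := by rw [Jc_apply, S.J_Ω, S.JJ]
  rw [h1, S.JJ, h2, S.J_apply (hF _ (star_mem hn : star n ∈ S.Nc F)), ← S.Jc_star, star_star]

theorem A_le_comm {F : VonNeumannAlgebra H} (hF : ∀ f ∈ F, f ∈ S.A) {a : H →L[ℂ] H}
    (ha : a ∈ S.A) : a ∈ (S.Nc F).commutant := by
  refine VonNeumannAlgebra.mem_commutant_iff.2 fun g hg => ?_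
  have := S.Jc_comm (hF _ hg) ha
  rw [S.Jc_Jc] at this
  exact this.symm

/-- The relation `n E Ω ↦ n x`. -/
def rel (N : VonNeumannAlgebra H) (y x : H) : Submodule ℂ (WithLp 2 (H × H)) where
  carrier := {z | ∃ n ∈ N, z = WithLp.toLp 2 (n y, n x)}
  zero_mem' := ⟨0, zero_mem N, by simp; rfl⟩
  add_mem' := by
    rintro _ _ ⟨n, hn, rfl⟩ ⟨m, hm, rfl⟩
    exact ⟨n + m, add_mem hn hm, by simp [← WithLp.toLp_add]⟩
  smul_mem' := by
    rintro c _ ⟨n, hn, rfl⟩
    exact ⟨c • n, N.toStarSubalgebra.smul_mem hn c, by simp [← WithLp.toLp_smul]⟩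

/-- The closure of a set of pairs inside a closed condition. -/
theorem closure_cond {N : VonNeumannAlgebra H} {y x : H} {C : Set (WithLp 2 (H × H))}
    (hC : IsClosed C) (h : ∀ n ∈ N, (WithLp.toLp 2 (n y, n x) : WithLp 2 (H × H)) ∈ C) :
    ∀ z ∈ (rel N y x).topologicalClosure, z ∈ C := by
  intro z hz
  have : ((rel N y x).topologicalClosure : Set (WithLp 2 (H × H))) ⊆ C := by
    rw [Submodule.topologicalClosure_coe]
    refine closure_minimal ?_ hC
    rintro _ ⟨n, hn, rfl⟩
    exact h n hn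
  exact this hz

theorem cyc (h : P_graph.{u}) (F : S.Sub) {τ : (H →L[ℂ] H) → ℝ≥0∞} (hτ : S.IsMuBar F τ) (x : H) :
    τ (proj (orb x (S.Nc F.F))) =
      ENNReal.ofReal (‖proj (orb x (S.Nc F.F).commutant) S.Ω‖ ^ 2) := by
  set N := S.Nc F.F with hN
  set M := N.commutant with hM
  set E := proj (orb x M) with hE
  have hEN : E ∈ N := by
    have := proj_orb_mem x M
    rwa [hM, VonNeumannAlgebra.commutant_commutant] at this
  set p := S.Jc E with hp
  have hpF : p ∈ F.F := hEN
  have hEs : star E = E := proj_star _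
  have hps : star p = p := by rw [hp, ← S.Jc_star, hEs]
  have hpp : p * p = p := by rw [hp, ← S.Jc_mul, hE, proj_mul_self]
  have hEx : E x = x := proj_eq_self_iff.2 ((orb x M).le_topologicalClosure (orb_self _ _))
  have hpe : p * S.e F = S.e F * p := by
    rw [e_eq]; exact proj_comm _ p (orb_inv hpF) (orb_inv (star_mem hpF))
  have hes : star (S.e F) = S.e F := by rw [e_eq]; exact proj_star _
  have hee : S.e F * S.e F = S.e F := by rw [e_eq]; exact proj_mul_self _
  set Γ : Submodule ℂ (WithLp 2 (H × H)) := (rel N (E S.Ω) x).topologicalClosure with hΓ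
  have hM' : ∀ m ∈ M, ∀ n ∈ N, n * m = m * n := fun m hm n hn =>
    VonNeumannAlgebra.mem_commutant_iff.1 hm n hn
  have hrel : ∀ m ∈ M, ∀ z ∈ Γ, ⟪m S.Ω, z.snd⟫_ℂ = ⟪S.J z.fst, (star m) x⟫_ℂ := by
    intro m hm z hz
    refine closure_cond (C := {z | ⟪m S.Ω, z.snd⟫_ℂ = ⟪S.J z.fst, (star m) x⟫_ℂ})
      (isClosed_eq ?_ ?_) ?_ z hz
    · exact continuous_const.inner (WithLp.continuous_snd 2 H H)
    · exact (S.J.continuous.comp (WithLp.continuous_fst 2 H H)).inner continuous_const
    · intro n hn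
      have hnE : n * E ∈ N := mul_mem hn hEN
      change ⟪m S.Ω, n x⟫_ℂ = ⟪S.J (n (E S.Ω)), (star m) x⟫_ℂ
      have e1 : S.J (n (E S.Ω)) = (star (n * E)) S.Ω := S.J_Nc F.le hnE
      have e2 : n x = (n * E) x := by
        change n x = n (E x)
        rw [hEx]
      rw [e1, e2, ← inner_star, inner_star' m]
      have e3 := congrArg (fun L : H →L[ℂ] H => L S.Ω) (hM' m hm (star (n * E)) (star_mem hnE))
      exact congrArg (fun w => ⟪w, x⟫_ℂ) e3
  have hEJ : ∀ z ∈ Γ, E (S.J z.fst) = S.J z.fst := by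
    intro z hz
    refine closure_cond (C := {z | E (S.J z.fst) = S.J z.fst}) (isClosed_eq ?_ ?_) ?_ z hz
    · exact E.continuous.comp (S.J.continuous.comp (WithLp.continuous_fst 2 H H))
    · exact S.J.continuous.comp (WithLp.continuous_fst 2 H H)
    · intro n hn
      have hnE : n * E ∈ N := mul_mem hn hEN
      change E (S.J (n (E S.Ω))) = S.J (n (E S.Ω))
      have e1 : S.J (n (E S.Ω)) = (star (n * E)) S.Ω := S.J_Nc F.le hnE
      rw [e1, star_mul, hEs]
      change E (E ((star n) S.Ω)) = E ((star n) S.Ω)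
      have := congrArg (fun L : H →L[ℂ] H => L ((star n) S.Ω)) (proj_mul_self (orb x M))
      exact this
  have hinv : ∀ n ∈ N, ∀ z ∈ Γ, (WithLp.toLp 2 (n z.fst, n z.snd) : WithLp 2 (H × H)) ∈ Γ := by
    intro n hn z hz
    refine closure_cond (C := {z | (WithLp.toLp 2 (n z.fst, n z.snd) : WithLp 2 (H × H)) ∈ Γ})
      ?_ ?_ z hz
    · have hc : Continuous fun z : WithLp 2 (H × H) =>
          (WithLp.toLp 2 (n z.fst, n z.snd) : WithLp 2 (H × H)) := by
        refine (WithLp.prod_continuous_toLp 2 H H).comp ?_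
        exact (n.continuous.comp (WithLp.continuous_fst 2 H H)).prodMk
          (n.continuous.comp (WithLp.continuous_snd 2 H H))
      exact (Submodule.isClosed_topologicalClosure _).preimage hc
    · intro k hk
      exact (rel N (E S.Ω) x).le_topologicalClosure ⟨n * k, mul_mem hn hk, rfl⟩
  have hz0 : ∀ z : WithLp 2 (H × H), z.fst = 0 → z.snd = 0 → z = 0 := by
    intro z h1 h2
    apply WithLp.ofLp_injective 2
    exact Prod.ext h1 h2
  have hinj1 : ∀ z ∈ Γ, z.fst = 0 → z = 0 := by
    intro z hz h0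
    refine hz0 z h0 ?_
    have hh : (fun y => ⟪y, z.snd⟫_ℂ) = fun y => ⟪y, (0 : H)⟫_ℂ := by
      refine Continuous.ext_on S.cyclic ?_ ?_ ?_
      · exact continuous_id.inner continuous_const
      · exact continuous_id.inner continuous_const
      rintro _ ⟨a, ha, rfl⟩
      simp only
      rw [hrel a (S.A_le_comm F.le ha) z hz, h0]
      simp
    exact ext_inner_left ℂ fun y => congrFun hh y
  have hinj2 : ∀ z ∈ Γ, z.snd = 0 → z = 0 := by
    intro z hz h0
    refine hz0 z ?_ h0
    have h1 : E (S.J z.fst) = 0 := by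
      refine proj_eq_of (Submodule.zero_mem _) ?_
      rintro _ ⟨m, hm, rfl⟩
      have h2 := hrel (star m) (star_mem hm) z hz
      rw [h0, inner_zero_right, star_star] at h2
      rw [sub_zero, ← inner_conj_symm, ← h2, map_zero]
    rw [hEJ z hz] at h1
    have := S.JJ z.fst
    rw [h1] at this
    simpa using this.symm
  have hform : ∀ f ∈ F.F, (S.Jc (star f)) (E S.Ω) = p (f S.Ω) := by
    intro f hf
    have h1 : E S.Ω = S.Jc p S.Ω := by rw [hp, S.Jc_Jc]
    rw [h1]
    change (S.Jc (star f) * S.Jc p) S.Ω = _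
    rw [← S.Jc_mul, Jc_apply, S.J_Ω, S.J_apply (mul_mem (star_mem (F.le f hf)) (F.le p hpF)),
      star_mul, hps, star_star]
    rfl
  have hrange1 : ((p * S.e F).range : Set H) = closure {y | ∃ z ∈ Γ, z.fst = y} := by
    apply Set.Subset.antisymm
    · rintro _ ⟨w, rfl⟩
      have hw : S.e F w ∈ (orb S.Ω F.F).topologicalClosure := by rw [e_eq]; exact proj_mem _ _
      have hmap := (Set.MapsTo.closure (s := (orb S.Ω F.F : Set H))
        (t := {y | ∃ z ∈ Γ, z.fst = y}) (f := p)
        (by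
          rintro _ ⟨f, hf, rfl⟩
          refine ⟨WithLp.toLp 2 ((S.Jc (star f)) (E S.Ω), (S.Jc (star f)) x), ?_, hform f hf⟩
          exact (rel N (E S.Ω) x).le_topologicalClosure ⟨_, S.Jc_mem_Nc (star_mem hf), rfl⟩)
        p.continuous)
      exact hmap hw
    · have hcl : IsClosed ((p * S.e F).range : Set H) := by
        have : ((p * S.e F).range : Set H) = {y | (p * S.e F) y = y} := by
          ext y
          constructor
          · rintro ⟨w, rfl⟩
            have : (p * S.e F) * (p * S.e F) = p * S.e F := by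
              calc p * S.e F * (p * S.e F) = p * (S.e F * p) * S.e F := by simp only [mul_assoc]
                _ = p * (p * S.e F) * S.e F := by rw [hpe]
                _ = (p * p) * (S.e F * S.e F) := by simp only [mul_assoc]
                _ = p * S.e F := by rw [hpp, hee]
            exact congrArg (fun L : H →L[ℂ] H => L w) this
          · intro hy
            exact ⟨y, hy⟩
        rw [this]
        exact isClosed_eq (p * S.e F).continuous continuous_id
      refine closure_minimal ?_ hcl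
      rintro _ ⟨z, hz, rfl⟩
      refine closure_cond (C := {z | z.fst ∈ ((p * S.e F).range : Set H)})
        (hcl.preimage (WithLp.continuous_fst 2 H H)) ?_ z hz
      intro n hn
      have hg : star (S.Jc n) ∈ F.F := star_mem hn
      refine ⟨(star (S.Jc n)) S.Ω, ?_⟩
      have h1 := hform _ hg
      rw [star_star, S.Jc_Jc] at h1
      change p (S.e F ((star (S.Jc n)) S.Ω)) = n (E S.Ω)
      rw [h1]
      congr 1
      rw [e_eq, proj_eq_self_iff]
      exact (orb S.Ω F.F).le_topologicalClosure ⟨_, hg, rfl⟩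
  have hrange2 : ((proj (orb x N)).range : Set H) = closure {y | ∃ z ∈ Γ, z.snd = y} := by
    rw [range_proj, Submodule.topologicalClosure_coe]
    apply Set.Subset.antisymm
    · refine closure_mono ?_
      rintro _ ⟨n, hn, rfl⟩
      refine ⟨WithLp.toLp 2 (n (E S.Ω), n x), ?_, rfl⟩
      exact (rel N (E S.Ω) x).le_topologicalClosure ⟨_, hn, rfl⟩
    · refine closure_minimal ?_ isClosed_closure
      rintro _ ⟨z, hz, rfl⟩
      refine closure_cond (C := {z | z.snd ∈ closure (orb x N : Set H)})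
        (isClosed_closure.preimage (WithLp.continuous_snd 2 H H)) ?_ z hz
      intro n hn
      exact subset_closure ⟨n, hn, rfl⟩
  obtain ⟨u, hu, hu1, hu2⟩ := h H N Γ (Submodule.isClosed_topologicalClosure _) hinv hinj1 hinj2
    (p * S.e F) (proj (orb x N)) ⟨by
      change p * S.e F * (p * S.e F) = p * S.e F
      calc p * S.e F * (p * S.e F) = p * (S.e F * p) * S.e F := by simp only [mul_assoc]
        _ = p * (p * S.e F) * S.e F := by rw [hpe]
        _ = (p * p) * (S.e F * S.e F) := by simp only [mul_assoc]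
        _ = p * S.e F := by rw [hpp, hee], by
      change star (p * S.e F) = p * S.e F
      rw [star_mul, hps, hes, hpe]⟩ (proj_isStarProjection _) hrange1 hrange2
  have huM : u ∈ S.basic F := by
    rw [S.basic_eq]
    exact VonNeumannAlgebra.mem_commutant_iff.2 hu
  have h1 := hτ.trace.tracial u huM
  rw [hu1, hu2] at h1
  have h2 := hτ.formula p (F.le p hpF)
  have h3 : p * S.e F * star p = p * S.e F := by rw [hps, mul_assoc, ← hpe, ← mul_assoc, hpp]
  rw [h3] at h2
  rw [← h1, h2]
  congr 1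
  change (⟪S.Ω, p ((star p) S.Ω)⟫_ℂ).re = _
  rw [← inner_star, hps]
  have h4 : p S.Ω = S.J (E S.Ω) := by rw [hp, Jc_apply, S.J_Ω]
  rw [h4, S.inner_JJ, inner_self_eq_norm_sq_to_K]
  norm_cast

end Sys

end Pool.Agent.Q12.Iso
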