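import Mathlib

/-!
# Isometric extensions of tracial W*-dynamical systems: definitions

A system is given in its GNS representation: a von Neumann algebra `A` of operators of the complex
Hilbert space `H`, a cyclic and separating unit vector `Ω` whose vector state is a trace on `A`, a
`*`-automorphism `α` of `A` preserving it, the unitary `U` with `U (a Ω) = α(a) Ω` and the modular
conjugation `J` with `J (a Ω) = a* Ω`.
-/

namespace Pool.Agent.Q12.Iso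

open scoped InnerProductSpace ComplexOrder ENNReal NNReal

universe u

variable (H : Type u) [NormedAddCommGroup H] [InnerProductSpace ℂ H] [CompleteSpace H]

/-- A tracial W*-dynamical system `(A, μ, α)` in its GNS representation:
`μ a = ⟪Ω, a Ω⟫`. -/
structure Sys where
  /-- the von Neumann algebra -/
  A : VonNeumannAlgebra H
  /-- the cyclic and separating vector -/
  Ω : H
  norm_Ω : ‖Ω‖ = 1
  cyclic : Dense {x : H | ∃ a ∈ A, a Ω = x}
  separating : ∀ a ∈ A, a Ω = 0 → a = 0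
  tracial : ∀ a ∈ A, ∀ b ∈ A, ⟪Ω, (a * b) Ω⟫_ℂ = ⟪Ω, (b * a) Ω⟫_ℂ
  /-- the automorphism -/
  α : A.toStarSubalgebra ≃⋆ₐ[ℂ] A.toStarSubalgebra
  invariant : ∀ a : A.toStarSubalgebra,
    ⟪Ω, ((α a : A.toStarSubalgebra) : H →L[ℂ] H) Ω⟫_ℂ = ⟪Ω, (a : H →L[ℂ] H) Ω⟫_ℂ
  /-- the unitary implementing the automorphism -/
  U : H ≃ₗᵢ[ℂ] H
  U_spec : ∀ a : A.toStarSubalgebra,
    U ((a : H →L[ℂ] H) Ω) = ((α a : A.toStarSubalgebra) : H →L[ℂ] H) Ω
  /-- the modular conjugation (a conjugate-linear isometry) -/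
  J : H ≃ₗᵢ⋆[ℂ] H
  J_spec : ∀ a : A.toStarSubalgebra,
    J ((a : H →L[ℂ] H) Ω) = (star (a : H →L[ℂ] H)) Ω

variable {H}

/-- A subsystem `F`: a von Neumann subalgebra of `A` with `α(F) = F`. -/
structure Sys.Sub (S : Sys H) where
  /-- the subalgebra -/
  F : VonNeumannAlgebra H
  le : ∀ f ∈ F, f ∈ S.A
  map_eq : ∀ a : S.A.toStarSubalgebra,
    (a : H →L[ℂ] H) ∈ F ↔ ((S.α a : S.A.toStarSubalgebra) : H →L[ℂ] H) ∈ F

/-- The orthogonal projection onto the closure of a subspace. -/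
noncomputable def proj (V : Submodule ℂ H) : H →L[ℂ] H := V.topologicalClosure.starProjection

/-- The subspace `F Ω`. -/
def orb (Ω : H) (F : VonNeumannAlgebra H) : Submodule ℂ H where
  carrier := {x | ∃ f ∈ F, f Ω = x}
  zero_mem' := ⟨0, F.zero_mem', by simp⟩
  add_mem' := by
    rintro _ _ ⟨f, hf, rfl⟩ ⟨g, hg, rfl⟩
    exact ⟨f + g, F.add_mem' hf hg, by simp⟩
  smul_mem' := by
    rintro c _ ⟨f, hf, rfl⟩
    exact ⟨c • f, F.toStarSubalgebra.smul_mem hf c, by simp⟩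

/-- `H_F`, the closure of `F Ω`. -/
noncomputable def Sys.HF (S : Sys H) (F : S.Sub) : Submodule ℂ H :=
  (orb S.Ω F.F).topologicalClosure

/-- The projection `e_F` onto `H_F`. -/
noncomputable def Sys.e (S : Sys H) (F : S.Sub) : H →L[ℂ] H := proj (S.HF F)

/-- The basic construction `⟨A, e_F⟩`: the bicommutant of `A ∪ {e_F}`. -/
def Sys.basic (S : Sys H) (F : S.Sub) : Set (H →L[ℂ] H) :=
  Set.centralizer (Set.centralizer ((S.A : Set (H →L[ℂ] H)) ∪ {S.e F}))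

/-- `τ` is a faithful normal semifinite trace on (the positive cone of) `M`. -/
structure IsTrace (M : Set (H →L[ℂ] H)) (τ : (H →L[ℂ] H) → ℝ≥0∞) : Prop where
  add : ∀ x ∈ M, ∀ y ∈ M, 0 ≤ x → 0 ≤ y → τ (x + y) = τ x + τ y
  smul : ∀ x ∈ M, 0 ≤ x → ∀ c : ℝ≥0, τ ((c : ℂ) • x) = c * τ x
  tracial : ∀ x ∈ M, τ (star x * x) = τ (x * star x)
  faithful : ∀ x ∈ M, 0 ≤ x → τ x = 0 → x = 0
  normal : ∀ (s : Set (H →L[ℂ] H)) (x : H →L[ℂ] H), s.Nonempty → DirectedOn (· ≤ ·) s →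
    (∀ y ∈ s, y ∈ M ∧ 0 ≤ y) → IsLUB s x → τ x = ⨆ y ∈ s, τ y
  semifinite : ∀ x ∈ M, 0 ≤ x → x ≠ 0 → ∃ y ∈ M, 0 ≤ y ∧ y ≤ x ∧ y ≠ 0 ∧ τ y < ⊤

/-- `τ` is the trace `μ̄` of the basic construction `⟨A, e_F⟩`. -/
structure Sys.IsMuBar (S : Sys H) (F : S.Sub) (τ : (H →L[ℂ] H) → ℝ≥0∞) : Prop where
  trace : IsTrace (S.basic F) τ
  formula : ∀ a ∈ S.A, τ (a * S.e F * star a) = ENNReal.ofReal (⟪S.Ω, (a * star a) S.Ω⟫_ℂ).re

/-- Right `F`-modules: closed subspaces `V` with `J f* J V ⊆ V` for all `f ∈ F`. -/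
def Sys.RightModule (S : Sys H) (F : S.Sub) (V : Submodule ℂ H) : Prop :=
  IsClosed (V : Set H) ∧ ∀ f ∈ F.F, ∀ v ∈ V, S.J (star f (S.J v)) ∈ V

/-- `U`-`μ̄`-modules: right `F`-modules `V ⊆ H ⊖ H_F` with `U V = V` and `μ̄(P_V) < ∞`. -/
structure Sys.UModule (S : Sys H) (F : S.Sub) (τ : (H →L[ℂ] H) → ℝ≥0∞) (V : Submodule ℂ H) :
    Prop where
  mod : S.RightModule F V
  perp : V ≤ (S.HF F)ᗮ
  inv : V.map (S.U.toLinearEquiv : H →ₗ[ℂ] H) = V
  finite : τ (proj V) < ⊤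

/-- `𝓔_{A/F}`: the closed linear span of all `U`-`μ̄`-modules. -/
noncomputable def Sys.E (S : Sys H) (F : S.Sub) (τ : (H →L[ℂ] H) → ℝ≥0∞) : Submodule ℂ H :=
  (sSup {V : Submodule ℂ H | S.UModule F τ V}).topologicalClosure

/-- `A` is an isometric extension of `F` (`τ` is the trace `μ̄` of `⟨A, e_F⟩`). -/
def Sys.Isometric (S : Sys H) (F : S.Sub) (τ : (H →L[ℂ] H) → ℝ≥0∞) : Prop :=
  S.E F τ = (S.HF F)ᗮ

/-- **Q1.** An isometric extension of `F` is an isometric extension of every intermediate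
system `G`. -/
def P_main : Prop :=
  ∀ (H : Type u) [NormedAddCommGroup H] [InnerProductSpace ℂ H] [CompleteSpace H] (S : Sys H)
    (F G : S.Sub), (∀ f ∈ F.F, f ∈ G.F) → ∀ τF τG : (H →L[ℂ] H) → ℝ≥0∞,
    S.IsMuBar F τF → S.IsMuBar G τG → S.Isometric F τF → S.Isometric G τG

end Pool.Agent.Q12.Iso
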