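import Pool.Agent.Q12.Iso.Tom

/-!
# Existence of the implementing unitary and of the modular conjugation
-/

namespace Pool.Agent.Q12.Iso

open scoped InnerProductSpace ComplexOrder ENNReal NNReal

universe u

variable {H : Type u} [NormedAddCommGroup H] [InnerProductSpace ℂ H] [CompleteSpace H]

/-- The unitary `U` and the modular conjugation `J` of `(A, Ω, α)` exist. -/
def P_UJ : Prop :=
  ∀ (H : Type u) [NormedAddCommGroup H] [InnerProductSpace ℂ H] [CompleteSpace H]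
    (A : VonNeumannAlgebra H) (Ω : H), Dense {x : H | ∃ a ∈ A, a Ω = x} →
    (∀ a ∈ A, ∀ b ∈ A, ⟪Ω, (a * b) Ω⟫_ℂ = ⟪Ω, (b * a) Ω⟫_ℂ) →
    ∀ α : A.toStarSubalgebra ≃⋆ₐ[ℂ] A.toStarSubalgebra,
    (∀ a : A.toStarSubalgebra,
      ⟪Ω, ((α a : A.toStarSubalgebra) : H →L[ℂ] H) Ω⟫_ℂ = ⟪Ω, (a : H →L[ℂ] H) Ω⟫_ℂ) →
    (∃ U : H ≃ₗᵢ[ℂ] H, ∀ a : A.toStarSubalgebra,
      U ((a : H →L[ℂ] H) Ω) = ((α a : A.toStarSubalgebra) : H →L[ℂ] H) Ω) ∧
    (∃ J : H ≃ₗᵢ⋆[ℂ] H, ∀ a : A.toStarSubalgebra,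
      J ((a : H →L[ℂ] H) Ω) = (star (a : H →L[ℂ] H)) Ω)

theorem extend_iso {E : Type*} [AddCommGroup E] [Module ℂ E] {σ σ' : ℂ →+* ℂ}
    [RingHomInvPair σ σ'] [RingHomInvPair σ' σ] [RingHomIsometric σ]
    (e : E →ₗ[ℂ] H) (f : E →ₛₗ[σ] H) (he : DenseRange e) (hf : DenseRange f)
    (hn : ∀ x, ‖f x‖ = ‖e x‖) : ∃ U : H ≃ₛₗᵢ[σ] H, ∀ x, U (e x) = f x := by
  set W : H →SL[σ] H := f.extendOfNorm e with hW
  have hn' : ∃ C, ∀ x, ‖f x‖ ≤ C * ‖e x‖ := ⟨1, fun x => by rw [one_mul]; exact (hn x).le⟩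
  have hWe : ∀ x, W (e x) = f x := fun x => LinearMap.extendOfNorm_eq he hn' x
  have hWn : ∀ x, ‖W x‖ = ‖x‖ := by
    have : (fun x => ‖W x‖) = fun x => ‖x‖ := by
      refine Continuous.ext_on he W.continuous.norm continuous_norm ?_
      rintro _ ⟨x, rfl⟩
      simp only
      rw [hWe, hn]
    exact fun x => congrFun this x
  have hiso : Isometry W := AddMonoidHomClass.isometry_of_norm W hWn
  have hsurj : Function.Surjective W := by
    have hcl : IsClosed (Set.range W) := hiso.isClosedEmbedding.isClosed_range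
    have hd : Set.range f ⊆ Set.range W := by
      rintro _ ⟨x, rfl⟩
      exact ⟨e x, hWe x⟩
    intro y
    have h1 : y ∈ closure (Set.range f) := hf y
    exact (closure_minimal hd hcl) h1
  exact ⟨LinearIsometryEquiv.ofSurjective ⟨W, hWn⟩ hsurj, hWe⟩

theorem exists_UJ (A : VonNeumannAlgebra H) (Ω : H)
    (cyclic : Dense {x : H | ∃ a ∈ A, a Ω = x})
    (tracial : ∀ a ∈ A, ∀ b ∈ A, ⟪Ω, (a * b) Ω⟫_ℂ = ⟪Ω, (b * a) Ω⟫_ℂ)
    (α : A.toStarSubalgebra ≃⋆ₐ[ℂ] A.toStarSubalgebra)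
    (invariant : ∀ a : A.toStarSubalgebra,
      ⟪Ω, ((α a : A.toStarSubalgebra) : H →L[ℂ] H) Ω⟫_ℂ = ⟪Ω, (a : H →L[ℂ] H) Ω⟫_ℂ) :
    (∃ U : H ≃ₗᵢ[ℂ] H, ∀ a : A.toStarSubalgebra,
      U ((a : H →L[ℂ] H) Ω) = ((α a : A.toStarSubalgebra) : H →L[ℂ] H) Ω) ∧
    (∃ J : H ≃ₗᵢ⋆[ℂ] H, ∀ a : A.toStarSubalgebra,
      J ((a : H →L[ℂ] H) Ω) = (star (a : H →L[ℂ] H)) Ω) := by
  let e : A.toStarSubalgebra →ₗ[ℂ] H :=
    { toFun := fun a => (a : H →L[ℂ] H) Ω
      map_add' := fun a b => by simp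
      map_smul' := fun c a => by simp }
  have he : DenseRange e := by
    refine cyclic.mono ?_
    rintro _ ⟨a, ha, rfl⟩
    exact ⟨⟨a, ha⟩, rfl⟩
  have hnn : ∀ a : A.toStarSubalgebra, ‖(a : H →L[ℂ] H) Ω‖ ^ 2 =
      (⟪Ω, ((star a * a : A.toStarSubalgebra) : H →L[ℂ] H) Ω⟫_ℂ).re := by
    intro a
    have : ((star a * a : A.toStarSubalgebra) : H →L[ℂ] H) Ω =
      (star (a : H →L[ℂ] H)) ((a : H →L[ℂ] H) Ω) := rfl
    rw [this, inner_star', inner_self_eq_norm_sq_to_K]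
    norm_cast
  constructor
  · let f : A.toStarSubalgebra →ₗ[ℂ] H :=
      { toFun := fun a => ((α a : A.toStarSubalgebra) : H →L[ℂ] H) Ω
        map_add' := fun a b => by simp
        map_smul' := fun c a => by simp }
    refine extend_iso e f he ?_ ?_
    · refine cyclic.mono ?_
      rintro _ ⟨a, ha, rfl⟩
      refine ⟨α.symm ⟨a, ha⟩, ?_⟩
      change ((α (α.symm ⟨a, ha⟩) : A.toStarSubalgebra) : H →L[ℂ] H) Ω = _
      simp
    · intro a
      have h1 := hnn a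
      have h2 := hnn (α a)
      rw [← map_star, ← map_mul, invariant, ← h1] at h2
      exact (pow_left_inj₀ (norm_nonneg _) (norm_nonneg _) two_ne_zero).1 h2
  · let f : A.toStarSubalgebra →ₛₗ[starRingEnd ℂ] H :=
      { toFun := fun a => (star (a : H →L[ℂ] H)) Ω
        map_add' := fun a b => by simp
        map_smul' := fun c a => by simp }
    refine extend_iso e f he ?_ ?_
    · refine cyclic.mono ?_
      rintro _ ⟨a, ha, rfl⟩
      refine ⟨star ⟨a, ha⟩, ?_⟩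
      change (star (star a)) Ω = _
      simp
    · intro a
      have h1 := hnn a
      have h2 := hnn (star a)
      have h3 := tracial (star (a : H →L[ℂ] H)) (star_mem a.2) a a.2
      have h4 : ⟪Ω, ((star (star a) * star a : A.toStarSubalgebra) : H →L[ℂ] H) Ω⟫_ℂ =
          ⟪Ω, ((star a * a : A.toStarSubalgebra) : H →L[ℂ] H) Ω⟫_ℂ := by
        rw [star_star]; exact h3.symm
      rw [h4, ← h1] at h2
      exact (pow_left_inj₀ (norm_nonneg _) (norm_nonneg _) two_ne_zero).1 h2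

end Pool.Agent.Q12.Iso
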