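import Pool.Agent.Q12.Iso.Cyc

/-!
# Polar decomposition of a closed relation
-/

namespace Pool.Agent.Q12.Iso

open scoped InnerProductSpace ComplexOrder ENNReal NNReal
open ContinuousLinearMap

universe u

section polar

variable {K H : Type u} [NormedAddCommGroup K] [InnerProductSpace ℂ K] [CompleteSpace K]
  [NormedAddCommGroup H] [InnerProductSpace ℂ H] [CompleteSpace H]

/-- The isometric factor of an injective bounded operator. -/
theorem polar (S : K →L[ℂ] H) (hS : ∀ x, S x = 0 → x = 0) :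
    ∃ W : K →L[ℂ] H, (∀ x, ‖W x‖ = ‖x‖) ∧ closure (Set.range S) = Set.range W ∧
      ∀ (a : K →L[ℂ] K) (b : H →L[ℂ] H), (∀ x, S (a x) = b (S x)) →
        (∀ x, S (adjoint a x) = adjoint b (S x)) → ∀ x, W (a x) = b (W x) := by
  set B : K →L[ℂ] K := adjoint S ∘L S with hB
  have hB0 : 0 ≤ B := by
    rw [nonneg_iff_isPositive]
    exact isPositive_adjoint_comp_self S
  set A : K →L[ℂ] K := CFC.sqrt B with hA
  have hA0 : 0 ≤ A := CFC.sqrt_nonneg _
  have hAs : star A = A := (IsSelfAdjoint.of_nonneg hA0).star_eq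
  have hAA : A * A = B := CFC.sqrt_mul_sqrt_self B hB0
  have hnorm : ∀ x, ‖A x‖ = ‖S x‖ := by
    intro x
    have h1 : ⟪A x, A x⟫_ℂ = ⟪S x, S x⟫_ℂ := by
      rw [← inner_star, hAs]
      have : A (A x) = adjoint S (S x) := congrArg (fun L : K →L[ℂ] K => L x) hAA
      rw [this, adjoint_inner_left]
    rw [inner_self_eq_norm_sq_to_K, inner_self_eq_norm_sq_to_K] at h1
    have h2 : ‖A x‖ ^ 2 = ‖S x‖ ^ 2 := by exact_mod_cast h1
    exact (pow_left_inj₀ (norm_nonneg _) (norm_nonneg _) two_ne_zero).1 h2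
  have hker : ∀ x, A x = 0 → x = 0 := by
    intro x hx
    apply hS
    rw [← norm_eq_zero, ← hnorm, hx, norm_zero]
  have hdense : DenseRange A := by
    have h1 : (A.range : Submodule ℂ K).topologicalClosure = ⊤ := by
      rw [Submodule.topologicalClosure_eq_top_iff, eq_bot_iff]
      intro y hy
      apply hker
      refine ext_inner_right ℂ fun z => ?_
      rw [← inner_star', hAs, inner_zero_left, ← inner_conj_symm]
      rw [(Submodule.mem_orthogonal _ _).1 hy (A z) ⟨z, rfl⟩, map_zero]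
    intro y
    have h2 : y ∈ (A.range : Submodule ℂ K).topologicalClosure := by rw [h1]; trivial
    exact h2
  have hn' : ∃ C, ∀ x, ‖(S : K →ₗ[ℂ] H) x‖ ≤ C * ‖(A : K →ₗ[ℂ] K) x‖ :=
    ⟨1, fun x => by rw [one_mul]; exact (hnorm x).ge⟩
  set W : K →L[ℂ] H := (S : K →ₗ[ℂ] H).extendOfNorm (A : K →ₗ[ℂ] K) with hW
  have hWA : ∀ x, W (A x) = S x := fun x =>
    LinearMap.extendOfNorm_eq (f := (S : K →ₗ[ℂ] H)) (e := (A : K →ₗ[ℂ] K)) hdense hn' x
  have hWn : ∀ x, ‖W x‖ = ‖x‖ := by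
    have : (fun x => ‖W x‖) = fun x => ‖x‖ := by
      refine Continuous.ext_on hdense W.continuous.norm continuous_norm ?_
      rintro _ ⟨x, rfl⟩
      simp only
      rw [hWA, hnorm]
    exact fun x => congrFun this x
  refine ⟨W, hWn, ?_, ?_⟩
  · apply Set.Subset.antisymm
    · refine closure_minimal ?_ ?_
      · rintro _ ⟨x, rfl⟩
        exact ⟨A x, hWA x⟩
      · have : Isometry W := AddMonoidHomClass.isometry_of_norm W hWn
        exact this.isClosedEmbedding.isClosed_range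
    · have h1 : Set.range W ⊆ closure (W '' Set.range A) := by
        rintro _ ⟨x, rfl⟩
        exact image_closure_subset_closure_image W.continuous ⟨x, hdense x, rfl⟩
      refine h1.trans (closure_mono ?_)
      rintro _ ⟨_, ⟨x, rfl⟩, rfl⟩
      exact ⟨x, (hWA x).symm⟩
  · intro a b h1 h2
    have hcomm : Commute B a := by
      change B * a = a * B
      ext x
      refine ext_inner_right ℂ fun y => ?_
      change ⟪adjoint S (S (a x)), y⟫_ℂ = ⟪a (adjoint S (S x)), y⟫_ℂ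
      rw [adjoint_inner_left, h1, ← adjoint_inner_right b, ← h2, ← adjoint_inner_left S,
        adjoint_inner_right]
    have hcA : A * a = a * A := (hcomm.cfcₙ_nnreal _ : Commute A a)
    have : (fun x => W (a x)) = fun x => b (W x) := by
      refine Continuous.ext_on hdense (by fun_prop) (by fun_prop) ?_
      rintro _ ⟨x, rfl⟩
      simp only
      have h3 : a (A x) = A (a x) := (congrArg (fun L : K →L[ℂ] K => L x) hcA).symm
      rw [h3, hWA, hWA, h1]
    exact fun x => congrFun this x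

end polar

/-- `W W*` for an isometry `W` is the projection onto its range. -/
theorem isometry_proj {K H : Type u} [NormedAddCommGroup K] [InnerProductSpace ℂ K]
    [CompleteSpace K] [NormedAddCommGroup H] [InnerProductSpace ℂ H] [CompleteSpace H]
    (W : K →L[ℂ] H) (hW : ∀ x, ‖W x‖ = ‖x‖) :
    adjoint W ∘L W = ContinuousLinearMap.id ℂ K ∧
      ∀ P : H →L[ℂ] H, IsStarProjection P → (P.range : Set H) = Set.range W →
        W ∘L adjoint W = P := by
  have h1 : adjoint W ∘L W = ContinuousLinearMap.id ℂ K := by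
    have := (ContinuousLinearMap.norm_map_iff_adjoint_comp_self W).1 hW
    exact this
  refine ⟨h1, fun P hP hR => ?_⟩
  have h1' : ∀ k, adjoint W (W k) = k := fun k => congrArg (fun L : K →L[ℂ] K => L k) h1
  have hPW : ∀ k, P (W k) = W k := by
    intro k
    have : W k ∈ (P.range : Set H) := by rw [hR]; exact ⟨k, rfl⟩
    obtain ⟨y, hy⟩ := this
    have hy' : P y = W k := hy
    rw [← hy']
    exact congrArg (fun L : H →L[ℂ] H => L y) hP.isIdempotentElem.eq
  ext x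
  refine ext_inner_right ℂ fun y => ?_
  change ⟪W (adjoint W x), y⟫_ℂ = ⟪P x, y⟫_ℂ
  have h2 : P y ∈ (P.range : Set H) := ⟨y, rfl⟩
  rw [hR] at h2
  obtain ⟨k, hk⟩ := h2
  have hPs : ∀ a b, ⟪P a, b⟫_ℂ = ⟪a, P b⟫_ℂ := by
    intro a b
    rw [← inner_star, hP.isSelfAdjoint.star_eq]
  rw [hPs x y, ← hk, ← hPW (adjoint W x), hPs, ← hk, ← adjoint_inner_left, ← adjoint_inner_left,
    h1']

theorem graph : P_graph.{u} := by
  intro H _ _ _ N Γ hΓ hinv hi1 hi2 P Q hP hQ hPr hQr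
  haveI : CompleteSpace Γ := hΓ.completeSpace_coe
  set S1 : Γ →L[ℂ] H := ((ContinuousLinearMap.fst ℂ H H) ∘L
    (WithLp.prodContinuousLinearEquiv 2 ℂ H H : WithLp 2 (H × H) →L[ℂ] H × H)) ∘L Γ.subtypeL
    with hS1
  set S2 : Γ →L[ℂ] H := ((ContinuousLinearMap.snd ℂ H H) ∘L
    (WithLp.prodContinuousLinearEquiv 2 ℂ H H : WithLp 2 (H × H) →L[ℂ] H × H)) ∘L Γ.subtypeL
    with hS2
  have hS1a : ∀ z : Γ, S1 z = (z : WithLp 2 (H × H)).fst := fun _ => rfl
  have hS2a : ∀ z : Γ, S2 z = (z : WithLp 2 (H × H)).snd := fun _ => rfl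
  obtain ⟨W1, hW1, hR1, hc1⟩ := polar S1 (fun z hz => Subtype.ext (hi1 z z.2 hz))
  obtain ⟨W2, hW2, hR2, hc2⟩ := polar S2 (fun z hz => Subtype.ext (hi2 z z.2 hz))
  obtain ⟨hi1', hp1⟩ := isometry_proj W1 hW1
  obtain ⟨hi2', hp2⟩ := isometry_proj W2 hW2
  have hr1 : Set.range S1 = {x | ∃ z ∈ Γ, z.fst = x} := by
    ext x
    constructor
    · rintro ⟨z, rfl⟩; exact ⟨z, z.2, rfl⟩
    · rintro ⟨z, hz, rfl⟩; exact ⟨⟨z, hz⟩, rfl⟩
  have hr2 : Set.range S2 = {x | ∃ z ∈ Γ, z.snd = x} := by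
    ext x
    constructor
    · rintro ⟨z, rfl⟩; exact ⟨z, z.2, rfl⟩
    · rintro ⟨z, hz, rfl⟩; exact ⟨⟨z, hz⟩, rfl⟩
  have hP' : W1 ∘L adjoint W1 = P := hp1 P hP (by rw [hPr, ← hr1, hR1])
  have hQ' : W2 ∘L adjoint W2 = Q := hp2 Q hQ (by rw [hQr, ← hr2, hR2])
  -- the action of `n` on `Γ`
  have hact : ∀ n ∈ N, ∃ a : Γ →L[ℂ] Γ, ∀ z : Γ, S1 (a z) = n (S1 z) ∧ S2 (a z) = n (S2 z) := by
    intro n hn
    let b : WithLp 2 (H × H) →L[ℂ] WithLp 2 (H × H) :=
      ((WithLp.prodContinuousLinearEquiv 2 ℂ H H).symm : H × H →L[ℂ] WithLp 2 (H × H)) ∘L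
        (n.prodMap n) ∘L
        (WithLp.prodContinuousLinearEquiv 2 ℂ H H : WithLp 2 (H × H) →L[ℂ] H × H)
    refine ⟨(b ∘L Γ.subtypeL).codRestrict Γ (fun z => hinv n hn z z.2), fun z => ⟨rfl, rfl⟩⟩
  have hinner : ∀ z w : Γ, ⟪z, w⟫_ℂ = ⟪S1 z, S1 w⟫_ℂ + ⟪S2 z, S2 w⟫_ℂ := by
    intro z w
    rw [hS1a, hS1a, hS2a, hS2a, Submodule.coe_inner, WithLp.prod_inner_apply]
    rfl
  have hcomm : ∀ n ∈ N, ∃ a : Γ →L[ℂ] Γ, (∀ z, W1 (a z) = n (W1 z)) ∧ (∀ z, W2 (a z) = n (W2 z)) ∧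
      (∀ z, W1 (adjoint a z) = star n (W1 z)) ∧ (∀ z, W2 (adjoint a z) = star n (W2 z)) := by
    intro n hn
    obtain ⟨a, ha⟩ := hact n hn
    obtain ⟨a', ha'⟩ := hact (star n) (star_mem hn)
    have hadj : adjoint a = a' := by
      symm
      rw [eq_adjoint_iff]
      intro z w
      rw [hinner, hinner, (ha' z).1, (ha' z).2, (ha w).1, (ha w).2, inner_star, inner_star]
    have hadj' : adjoint a' = a := by rw [← hadj, adjoint_adjoint]
    have hns : adjoint n = star n := rfl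
    have hns' : adjoint (star n) = n := by rw [← hns, adjoint_adjoint]
    refine ⟨a, hc1 a n (fun z => (ha z).1) (fun z => ?_), hc2 a n (fun z => (ha z).2)
      (fun z => ?_), fun z => ?_, fun z => ?_⟩
    · rw [hadj, hns]; exact (ha' z).1
    · rw [hadj, hns]; exact (ha' z).2
    · rw [hadj]
      refine hc1 a' (star n) (fun z => (ha' z).1) (fun z => ?_) z
      rw [hadj', hns']; exact (ha z).1
    · rw [hadj]
      refine hc2 a' (star n) (fun z => (ha' z).2) (fun z => ?_) z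
      rw [hadj', hns']; exact (ha z).2
  refine ⟨W2 ∘L adjoint W1, ?_, ?_, ?_⟩
  · intro n hn
    obtain ⟨a, h1, h2, h3, h4⟩ := hcomm n hn
    have h5 : ∀ x, adjoint W1 (n x) = a (adjoint W1 x) := by
      intro x
      refine ext_inner_right ℂ fun z => ?_
      rw [adjoint_inner_left, ← inner_star', ← h3, ← adjoint_inner_left W1, ← adjoint_inner_right a]
    ext x
    change n (W2 (adjoint W1 x)) = W2 (adjoint W1 (n x))
    rw [h5, h2]
  · rw [star_eq_adjoint, adjoint_comp, adjoint_adjoint]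
    rw [← hP']
    ext x
    change W1 (adjoint W2 (W2 (adjoint W1 x))) = W1 (adjoint W1 x)
    have := congrArg (fun L : Γ →L[ℂ] Γ => L (adjoint W1 x)) hi2'
    have h : adjoint W2 (W2 (adjoint W1 x)) = adjoint W1 x := this
    rw [h]
  · rw [star_eq_adjoint, adjoint_comp, adjoint_adjoint]
    rw [← hQ']
    ext x
    change W2 (adjoint W1 (W1 (adjoint W2 x))) = W2 (adjoint W2 x)
    have := congrArg (fun L : Γ →L[ℂ] Γ => L (adjoint W2 x)) hi1'
    have h : adjoint W1 (W1 (adjoint W2 x)) = adjoint W2 x := this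
    rw [h]

end Pool.Agent.Q12.Iso
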