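import Pool.Agent.Q12.Iso.Def

/-!
# Statements of the steps

`N` is a von Neumann algebra (later `N = J F J`), `M = N'` its commutant.
-/

namespace Pool.Agent.Q12.Iso

open scoped InnerProductSpace ComplexOrder ENNReal NNReal

universe u

/-- **GRAPH** (polar decomposition of a closed relation).  A closed `N`-invariant subspace `Γ` of
`H ⊕ H` both coordinates of which are injective gives a partial isometry in `N'` from the closure
of the first projection onto the closure of the second one. -/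
def P_graph : Prop :=
  ∀ (H : Type u) [NormedAddCommGroup H] [InnerProductSpace ℂ H] [CompleteSpace H]
    (N : VonNeumannAlgebra H) (Γ : Submodule ℂ (WithLp 2 (H × H))),
    IsClosed (Γ : Set (WithLp 2 (H × H))) →
    (∀ n ∈ N, ∀ z ∈ Γ, (WithLp.toLp 2 (n z.fst, n z.snd) : WithLp 2 (H × H)) ∈ Γ) →
    (∀ z ∈ Γ, z.fst = 0 → z = 0) → (∀ z ∈ Γ, z.snd = 0 → z = 0) →
    ∀ P Q : H →L[ℂ] H, IsStarProjection P → IsStarProjection Q →
      (P.range : Set H) = closure {x | ∃ z ∈ Γ, z.fst = x} →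
      (Q.range : Set H) = closure {x | ∃ z ∈ Γ, z.snd = x} →
      ∃ u : H →L[ℂ] H, (∀ n ∈ N, n * u = u * n) ∧ star u * u = P ∧ u * star u = Q

/-- **SUPP** (left and right support of `T` are equivalent). -/
def P_supp : Prop :=
  ∀ (H : Type u) [NormedAddCommGroup H] [InnerProductSpace ℂ H] [CompleteSpace H]
    (N : VonNeumannAlgebra H) (T : H →L[ℂ] H), (∀ n ∈ N, n * T = T * n) →
      ∃ u : H →L[ℂ] H, (∀ n ∈ N, n * u = u * n) ∧
        u * star u = proj T.range ∧ star u * u = proj (star T).range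

/-- **ZORN** (decomposition into cyclic submodules). -/
def P_zorn : Prop :=
  ∀ (H : Type u) [NormedAddCommGroup H] [InnerProductSpace ℂ H] [CompleteSpace H]
    (N : VonNeumannAlgebra H) (V : Submodule ℂ H), IsClosed (V : Set H) →
    (∀ n ∈ N, ∀ v ∈ V, n v ∈ V) →
    ∃ I : Set H, (∀ x ∈ I, x ∈ V) ∧
      (∀ x ∈ I, ∀ y ∈ I, x ≠ y → ∀ n ∈ N, ⟪x, n y⟫_ℂ = 0) ∧
      V ≤ (⨆ x ∈ I, orb x N).topologicalClosure

/-- **SUPER** (orthogonal cyclic submodules of `V`: finite sums of traces are at most the trace of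
`V`). -/
def P_super : Prop :=
  ∀ (H : Type u) [NormedAddCommGroup H] [InnerProductSpace ℂ H] [CompleteSpace H]
    (N : VonNeumannAlgebra H) (τ : (H →L[ℂ] H) → ℝ≥0∞), IsTrace (N.commutant : Set (H →L[ℂ] H)) τ →
    ∀ (V : Submodule ℂ H), IsClosed (V : Set H) → (∀ n ∈ N, ∀ v ∈ V, n v ∈ V) →
    ∀ s : Finset H, (∀ x ∈ s, x ∈ V) →
      (∀ x ∈ s, ∀ y ∈ s, x ≠ y → ∀ n ∈ N, ⟪x, n y⟫_ℂ = 0) →
      ∑ x ∈ s, τ (proj (orb x N)) ≤ τ (proj V)

/-- **SUB** (subadditivity of the trace of the closed span of cyclic submodules; uses SUPP for two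
submodules and normality for infinitely many). -/
def P_sub : Prop :=
  ∀ (H : Type u) [NormedAddCommGroup H] [InnerProductSpace ℂ H] [CompleteSpace H]
    (N : VonNeumannAlgebra H) (τ : (H →L[ℂ] H) → ℝ≥0∞), IsTrace (N.commutant : Set (H →L[ℂ] H)) τ →
    ∀ (I : Set H) (c : ℝ≥0∞), (∀ s : Finset H, (∀ x ∈ s, x ∈ I) →
      ∑ x ∈ s, τ (proj (orb x N)) ≤ c) →
    τ (proj (⨆ x ∈ I, orb x N)) ≤ c

end Pool.Agent.Q12.Iso
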