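import Pool.Agent.Q12.Iso.Cyc

/-!
# Elementary properties of the trace; superadditivity
-/

namespace Pool.Agent.Q12.Iso

open scoped InnerProductSpace ComplexOrder ENNReal NNReal

universe u

variable {H : Type u} [NormedAddCommGroup H] [InnerProductSpace ℂ H] [CompleteSpace H]

theorem proj_nonneg (V : Submodule ℂ H) : 0 ≤ proj V :=
  (ContinuousLinearMap.nonneg_iff_isPositive _).2
    (ContinuousLinearMap.IsPositive.of_isStarProjection (proj_isStarProjection V))

theorem proj_le_proj {V W : Submodule ℂ H} (h : V ≤ W.topologicalClosure) : proj V ≤ proj W :=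
  Submodule.starProjection_le_starProjection_iff.2
    (Submodule.topologicalClosure_minimal _ h (Submodule.isClosed_topologicalClosure _))

variable {N : VonNeumannAlgebra H} {τ : (H →L[ℂ] H) → ℝ≥0∞}

theorem trace_zero (hτ : IsTrace (N.commutant : Set (H →L[ℂ] H)) τ) : τ 0 = 0 := by
  have := hτ.smul 0 (zero_mem N.commutant) le_rfl 0
  simpa using this

theorem trace_mono (hτ : IsTrace (N.commutant : Set (H →L[ℂ] H)) τ) {P Q : H →L[ℂ] H}
    (hP : P ∈ N.commutant) (hQ : Q ∈ N.commutant) (hP0 : 0 ≤ P) (hPQ : P ≤ Q) : τ P ≤ τ Q := by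
  have h := hτ.add P hP (Q - P) (sub_mem hQ hP) hP0 (sub_nonneg.2 hPQ)
  rw [add_sub_cancel] at h
  rw [h]
  exact le_self_add

theorem trace_sum (hτ : IsTrace (N.commutant : Set (H →L[ℂ] H)) τ) {ι : Type*} (s : Finset ι)
    (f : ι → H →L[ℂ] H) (hf : ∀ i ∈ s, f i ∈ N.commutant ∧ 0 ≤ f i) :
    τ (∑ i ∈ s, f i) = ∑ i ∈ s, τ (f i) := by
  classical
  induction s using Finset.induction_on with
  | empty => simpa using trace_zero hτ
  | insert a s ha ih =>
    rw [Finset.sum_insert ha, Finset.sum_insert ha, ← ih fun i hi => hf i (Finset.mem_insert_of_mem hi)]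
    exact hτ.add _ (hf a (Finset.mem_insert_self _ _)).1 _
      (sum_mem fun i hi => (hf i (Finset.mem_insert_of_mem hi)).1)
      (hf a (Finset.mem_insert_self _ _)).2
      (Finset.sum_nonneg fun i hi => (hf i (Finset.mem_insert_of_mem hi)).2)

/-- Pairwise orthogonal cyclic submodules: the projection onto the sum is the sum of the
projections. -/
theorem proj_iSup (s : Finset H)
    (hs : ∀ x ∈ s, ∀ y ∈ s, x ≠ y → ∀ n ∈ N, ⟪x, n y⟫_ℂ = 0) :
    proj (⨆ x ∈ s, orb x N) = ∑ x ∈ s, proj (orb x N) := by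
  ext v
  have e : (∑ x ∈ s, proj (orb x N)) v = ∑ x ∈ s, proj (orb x N) v := by
    simp
  rw [e]
  refine proj_eq_of ?_ ?_
  · refine Submodule.sum_mem _ fun x hx => ?_
    exact Submodule.topologicalClosure_mono (le_iSup₂_of_le x hx le_rfl) (proj_mem _ _)
  · have : (⨆ x ∈ s, orb x N) ≤ (ℂ ∙ (v - ∑ x ∈ s, proj (orb x N) v))ᗮ := by
      refine iSup₂_le fun z hz => ?_
      intro w hw
      rw [Submodule.mem_orthogonal_singleton_iff_inner_left]
      have h1 : ∀ x ∈ s, x ≠ z → ⟪w, proj (orb x N) v⟫_ℂ = 0 := by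
        intro x hx hne
        have h2 : ∀ y ∈ (orb x N).topologicalClosure, ⟪w, y⟫_ℂ = 0 := by
          have : (orb x N).topologicalClosure ≤ (ℂ ∙ w)ᗮ := by
            refine Submodule.topologicalClosure_minimal _ ?_ (Submodule.isClosed_orthogonal _)
            rintro _ ⟨n, hn, rfl⟩
            rw [Submodule.mem_orthogonal_singleton_iff_inner_right]
            obtain ⟨m, hm, rfl⟩ := hw
            rw [← inner_star']
            have := hs z hz x hx (Ne.symm hne) (star m * n) (mul_mem (star_mem hm) hn)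
            exact this
          intro y hy
          exact Submodule.mem_orthogonal_singleton_iff_inner_right.1 (this hy)
        exact h2 _ (proj_mem _ _)
      have h2 : ∑ x ∈ s, ⟪w, proj (orb x N) v⟫_ℂ = ⟪w, proj (orb z N) v⟫_ℂ :=
        Finset.sum_eq_single z h1 (fun h => absurd hz h)
      rw [inner_sub_right, inner_sum, h2, ← inner_sub_right]
      exact sub_proj_inner v ((orb z N).le_topologicalClosure hw)
    intro w hw
    exact Submodule.mem_orthogonal_singleton_iff_inner_left.1 (this hw)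

theorem proj_inv_mem {V : Submodule ℂ H} (h : ∀ n ∈ N, ∀ v ∈ V, n v ∈ V) :
    proj V ∈ N.commutant :=
  VonNeumannAlgebra.mem_commutant_iff.2 fun n hn =>
    proj_comm V n (h n hn) (h _ (star_mem hn))

theorem super : P_super.{u} := by
  intro H _ _ _ N τ hτ V hVc hV s hs1 hs2
  rw [← trace_sum hτ s _ fun x _ => ⟨Sys.proj_orb_mem x N, proj_nonneg _⟩, ← proj_iSup s hs2]
  refine trace_mono hτ ?_ (proj_inv_mem hV) (proj_nonneg _) (proj_le_proj ?_)
  · rw [proj_iSup s hs2]
    exact sum_mem fun x _ => Sys.proj_orb_mem x N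
  · refine le_trans ?_ V.le_topologicalClosure
    refine iSup₂_le fun x hx => ?_
    rintro _ ⟨n, hn, rfl⟩
    exact hV n hn x (hs1 x hx)

end Pool.Agent.Q12.Iso
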