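import Pool.Agent.Q12.Iso.Graph
import Pool.Agent.Q12.Iso.Super

/-!
# Supports and subadditivity
-/

namespace Pool.Agent.Q12.Iso

open scoped InnerProductSpace ComplexOrder ENNReal NNReal

universe u

variable {H : Type u} [NormedAddCommGroup H] [InnerProductSpace ℂ H] [CompleteSpace H]

/-- The graph of `T` over the closure of the range of `T*`. -/
def gr (T : H →L[ℂ] H) : Submodule ℂ (WithLp 2 (H × H)) where
  carrier := {z | z.fst ∈ (star T).range.topologicalClosure ∧ z.snd = T z.fst}
  zero_mem' := ⟨Submodule.zero_mem _, by simp⟩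
  add_mem' := by
    rintro a b ⟨h1, h2⟩ ⟨h3, h4⟩
    exact ⟨Submodule.add_mem _ h1 h3, by simp [h2, h4]⟩
  smul_mem' := by
    rintro c a ⟨h1, h2⟩
    exact ⟨Submodule.smul_mem _ c h1, by simp [h2]⟩

theorem star_comm' {N : VonNeumannAlgebra H} {T : H →L[ℂ] H} (hT : ∀ n ∈ N, n * T = T * n) :
    ∀ n ∈ N, n * star T = star T * n := by
  intro n hn
  have := congrArg star (hT (star n) (star_mem hn))
  simpa using this.symm

theorem supp : P_supp.{u} := by
  intro H _ _ _ N T hT
  have hTs := star_comm' hT
  have happ : ∀ n ∈ N, ∀ x, n (T x) = T (n x) := fun n hn x =>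
    congrArg (fun L : H →L[ℂ] H => L x) (hT n hn)
  have happs : ∀ n ∈ N, ∀ x, n ((star T) x) = (star T) (n x) := fun n hn x =>
    congrArg (fun L : H →L[ℂ] H => L x) (hTs n hn)
  suffices hex : ∃ u : H →L[ℂ] H, (∀ n ∈ N, n * u = u * n) ∧
      star u * u = proj (star T).range ∧ u * star u = proj T.range by
    obtain ⟨u, hu, hu1, hu2⟩ := hex
    exact ⟨u, hu, hu2, hu1⟩
  refine graph H N (gr T) ?_ ?_ ?_ ?_ (proj (star T).range) (proj T.range)
    (proj_isStarProjection _) (proj_isStarProjection _) ?_ ?_
  · -- closed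
    have h1 : IsClosed {z : WithLp 2 (H × H) | z.fst ∈ (star T).range.topologicalClosure} :=
      (Submodule.isClosed_topologicalClosure _).preimage (WithLp.continuous_fst 2 H H)
    have h2 : IsClosed {z : WithLp 2 (H × H) | z.snd = T z.fst} :=
      isClosed_eq (WithLp.continuous_snd 2 H H) (T.continuous.comp (WithLp.continuous_fst 2 H H))
    exact h1.inter h2
  · -- invariant
    rintro n hn z ⟨h1, h2⟩
    refine ⟨?_, ?_⟩
    · refine map_closure_mem n ?_ h1
      rintro _ ⟨y, rfl⟩
      exact ⟨n y, (happs n hn y).symm⟩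
    · change n z.snd = T (n z.fst)
      rw [h2, happ n hn]
  · rintro z ⟨h1, h2⟩ h0
    apply WithLp.ofLp_injective 2
    refine Prod.ext h0 ?_
    change z.snd = 0
    rw [h2, h0, map_zero]
  · rintro z ⟨h1, h2⟩ h0
    have h3 : T z.fst = 0 := by rw [← h2, h0]
    have h4 : (star T).range.topologicalClosure ≤ (ℂ ∙ z.fst)ᗮ := by
      refine Submodule.topologicalClosure_minimal _ ?_ (Submodule.isClosed_orthogonal _)
      rintro _ ⟨y, rfl⟩
      rw [Submodule.mem_orthogonal_singleton_iff_inner_right]
      change ⟪z.fst, (star T) y⟫_ℂ = 0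
      rw [inner_star', h3, inner_zero_left]
    have h5 : z.fst = 0 := by
      have := Submodule.mem_orthogonal_singleton_iff_inner_right.1 (h4 h1)
      exact inner_self_eq_zero.1 this
    apply WithLp.ofLp_injective 2
    exact Prod.ext h5 h0
  · rw [range_proj]
    have : {x | ∃ z ∈ gr T, z.fst = x} = ((star T).range.topologicalClosure : Set H) := by
      ext x
      constructor
      · rintro ⟨z, hz, rfl⟩; exact hz.1
      · intro hx; exact ⟨WithLp.toLp 2 (x, T x), ⟨hx, rfl⟩, rfl⟩
    rw [this, (Submodule.isClosed_topologicalClosure _).closure_eq]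
  · rw [range_proj, Submodule.topologicalClosure_coe]
    congr 1
    ext x
    constructor
    · rintro ⟨y, rfl⟩
      refine ⟨WithLp.toLp 2 (proj (star T).range y, T (proj (star T).range y)),
        ⟨proj_mem _ _, rfl⟩, ?_⟩
      change T (proj (star T).range y) = T y
      have h1 : T (y - proj (star T).range y) = 0 := by
        refine ext_inner_left ℂ fun w => ?_
        rw [← inner_star, inner_zero_right]
        exact sub_proj_inner y ((star T).range.le_topologicalClosure ⟨w, rfl⟩)
      rw [map_sub, sub_eq_zero] at h1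
      exact h1.symm
    · rintro ⟨z, hz, rfl⟩
      exact ⟨z.fst, hz.2.symm⟩

variable {N : VonNeumannAlgebra H} {τ : (H →L[ℂ] H) → ℝ≥0∞}

theorem sub_two (hτ : IsTrace (N.commutant : Set (H →L[ℂ] H)) τ) {A B : Submodule ℂ H}
    (hA : ∀ n ∈ N, ∀ v ∈ A, n v ∈ A) (hB : ∀ n ∈ N, ∀ v ∈ B, n v ∈ B) :
    τ (proj (A ⊔ B)) ≤ τ (proj A) + τ (proj B) := by
  have hPA := proj_inv_mem hA
  have hPB := proj_inv_mem hB
  set T : H →L[ℂ] H := (1 - proj A) * proj B with hT
  have hTM : T ∈ N.commutant := mul_mem (sub_mem (one_mem _) hPA) hPB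
  have hTapp : ∀ y, T y = proj B y - proj A (proj B y) := fun y => rfl
  obtain ⟨u, hu, hu1, hu2⟩ := supp H N T (fun n hn => VonNeumannAlgebra.mem_commutant_iff.1 hTM n hn)
  have huM : u ∈ N.commutant := VonNeumannAlgebra.mem_commutant_iff.2 hu
  have hR : proj T.range ∈ N.commutant := by
    rw [← hu1]; exact mul_mem huM (star_mem huM)
  have hR' : proj (star T).range ∈ N.commutant := by
    rw [← hu2]; exact mul_mem (star_mem huM) huM
  have hperp : ∀ a ∈ A.topologicalClosure, ∀ r ∈ T.range.topologicalClosure, ⟪a, r⟫_ℂ = 0 := by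
    intro a ha
    have : T.range.topologicalClosure ≤ (ℂ ∙ a)ᗮ := by
      refine Submodule.topologicalClosure_minimal _ ?_ (Submodule.isClosed_orthogonal _)
      rintro _ ⟨y, rfl⟩
      rw [Submodule.mem_orthogonal_singleton_iff_inner_right]
      exact sub_proj_inner _ ha
    intro r hr
    exact Submodule.mem_orthogonal_singleton_iff_inner_right.1 (this hr)
  have h1 : proj (A ⊔ B) = proj A + proj T.range := by
    ext v
    refine proj_eq_of ?_ ?_
    · refine Submodule.add_mem _ ?_ ?_
      · exact Submodule.topologicalClosure_mono le_sup_left (proj_mem _ _)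
      · have : T.range.topologicalClosure ≤ (A ⊔ B).topologicalClosure := by
          refine Submodule.topologicalClosure_minimal _ ?_ (Submodule.isClosed_topologicalClosure _)
          rintro _ ⟨y, rfl⟩
          refine Submodule.sub_mem _ ?_ ?_
          · exact Submodule.topologicalClosure_mono le_sup_right (proj_mem _ _)
          · exact Submodule.topologicalClosure_mono le_sup_left (proj_mem _ _)
        exact this (proj_mem _ _)
    · have hw1 : ∀ w ∈ A.topologicalClosure, ⟪w, v - (proj A + proj T.range) v⟫_ℂ = 0 := by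
        intro w hw
        have e : v - (proj A + proj T.range) v = (v - proj A v) - proj T.range v := by
          change v - (proj A v + proj T.range v) = _
          abel
        rw [e, inner_sub_right, sub_proj_inner v hw, hperp w hw _ (proj_mem _ _), sub_zero]
      have hw2 : ∀ y, ⟪T y, v - (proj A + proj T.range) v⟫_ℂ = 0 := by
        intro y
        have e : v - (proj A + proj T.range) v = (v - proj T.range v) - proj A v := by
          change v - (proj A v + proj T.range v) = _
          abel
        have h3 : ⟪T y, proj A v⟫_ℂ = 0 := by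
          have h4 := hperp (proj A v) (proj_mem _ _) (T y)
            (T.range.le_topologicalClosure ⟨y, rfl⟩)
          rw [← inner_conj_symm, h4, map_zero]
        rw [e, inner_sub_right, h3, sub_zero]
        exact sub_proj_inner v (T.range.le_topologicalClosure ⟨y, rfl⟩)
      intro w hw
      obtain ⟨a, ha, b, hb, rfl⟩ := Submodule.mem_sup.1 hw
      rw [inner_add_left, hw1 a (A.le_topologicalClosure ha), zero_add]
      have hb' : proj B b = b := proj_eq_self_iff.2 (B.le_topologicalClosure hb)
      have e : b = proj A b + T b := by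
        rw [hTapp, hb']; abel
      rw [e, inner_add_left, hw1 _ (proj_mem _ _), hw2, add_zero]
  have h2 : proj (star T).range ≤ proj B := by
    refine proj_le_proj ?_
    rintro _ ⟨y, rfl⟩
    have : star T = proj B * (1 - proj A) := by
      rw [hT, star_mul, star_sub, star_one, proj_star, proj_star]
    change (star T) y ∈ _
    rw [this]
    exact proj_mem _ _
  rw [h1, hτ.add _ hPA _ hR (proj_nonneg _) (proj_nonneg _)]
  refine add_le_add le_rfl ?_
  have h3 := hτ.tracial u huM
  rw [hu1, hu2] at h3
  rw [← h3]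
  exact trace_mono hτ hR' hPB (proj_nonneg _) h2

theorem iSup_inv (I : Set H) : ∀ n ∈ N, ∀ v ∈ (⨆ x ∈ I, orb x N : Submodule ℂ H),
    n v ∈ (⨆ x ∈ I, orb x N : Submodule ℂ H) := by
  intro n hn v hv
  have : (⨆ x ∈ I, orb x N : Submodule ℂ H) ≤
      (⨆ x ∈ I, orb x N : Submodule ℂ H).comap ((n : H →L[ℂ] H) : H →ₗ[ℂ] H) := by
    refine iSup₂_le fun x hx => ?_
    rintro _ ⟨m, hm, rfl⟩
    exact (le_iSup₂_of_le x hx le_rfl : orb x N ≤ ⨆ x ∈ I, orb x N) ⟨_, mul_mem hn hm, rfl⟩
  exact this hv

theorem sub_fin (hτ : IsTrace (N.commutant : Set (H →L[ℂ] H)) τ) (s : Finset H) :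
    τ (proj (⨆ x ∈ (s : Set H), orb x N)) ≤ ∑ x ∈ s, τ (proj (orb x N)) := by
  classical
  induction s using Finset.induction_on with
  | empty =>
    have : proj (⨆ x ∈ ((∅ : Finset H) : Set H), orb x N) = 0 := by
      ext v
      refine proj_eq_of (Submodule.zero_mem _) ?_
      intro w hw
      have : w = 0 := by simpa using hw
      rw [this, inner_zero_left]
    rw [this, trace_zero hτ]
    exact zero_le
  | insert a s ha ih =>
    rw [Finset.sum_insert ha]
    have : (⨆ x ∈ ((insert a s : Finset H) : Set H), orb x N) =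
        orb a N ⊔ ⨆ x ∈ (s : Set H), orb x N := by
      rw [Finset.coe_insert, iSup_insert]
    rw [this]
    refine (sub_two hτ (fun n hn => Sys.orb_inv hn) (iSup_inv _)).trans ?_
    exact add_le_add le_rfl ih

theorem sub : P_sub.{u} := by
  intro H _ _ _ N τ hτ I c hc
  classical
  set s0 : Set (H →L[ℂ] H) := {P | ∃ t : Finset H, (t : Set H) ⊆ I ∧
    P = proj (⨆ x ∈ (t : Set H), orb x N)} with hs0
  have hlub : IsLUB s0 (proj (⨆ x ∈ I, orb x N)) := by
    refine ⟨?_, ?_⟩
    · rintro _ ⟨t, ht, rfl⟩
      refine proj_le_proj (le_trans ?_ (Submodule.le_topologicalClosure _))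
      exact biSup_mono ht
    · intro y hy
      have hy0 : 0 ≤ y := by
        have h1 := hy ⟨∅, by simp, rfl⟩
        exact (proj_nonneg _).trans h1
      have hyp := (ContinuousLinearMap.nonneg_iff_isPositive _).1 hy0
      rw [ContinuousLinearMap.le_def]
      refine ⟨?_, ?_⟩
      · have h1 := hyp.1
        have h2 := ((ContinuousLinearMap.nonneg_iff_isPositive _).1
          (proj_nonneg (⨆ x ∈ I, orb x N))).1
        exact h1.sub h2
      · intro v
        set K : Submodule ℂ H := ⨆ x ∈ I, orb x N with hK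
        set r : ℝ := RCLike.re ⟪y v, v⟫_ℂ with hr
        have hnsq : ∀ V : Submodule ℂ H, RCLike.re ⟪proj V v, v⟫_ℂ = ‖proj V v‖ ^ 2 := fun V =>
          Submodule.re_inner_starProjection_eq_normSq _ v
        have hrt : ∀ t : Finset H, (t : Set H) ⊆ I →
            ‖proj (⨆ x ∈ (t : Set H), orb x N) v‖ ^ 2 ≤ r := by
          intro t ht
          have h1 : proj (⨆ x ∈ (t : Set H), orb x N) ≤ y := hy ⟨t, ht, rfl⟩
          rw [ContinuousLinearMap.le_def] at h1
          have h2 : 0 ≤ RCLike.re ⟪(y - proj (⨆ x ∈ (t : Set H), orb x N)) v, v⟫_ℂ := h1.2 v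
          rw [_root_.sub_apply, inner_sub_left, map_sub, hnsq] at h2
          linarith
        have hr0 : 0 ≤ r := le_trans (sq_nonneg _) (hrt ∅ (by simp))
        have hmain : ‖proj K v‖ ≤ Real.sqrt r := by
          refine le_of_forall_pos_le_add fun ε hε => ?_
          obtain ⟨w, hw, hwd⟩ := Metric.mem_closure_iff.1 (proj_mem K v) (ε / 2) (half_pos hε)
          have hw' : w ∈ ⨆ x : I, orb (x : H) N := by
            have : w ∈ K := hw
            rwa [hK, iSup_subtype'] at this
          obtain ⟨t, ht⟩ := Submodule.mem_iSup_iff_exists_finset.1 hw'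
          set t' : Finset H := t.image Subtype.val with ht'
          have htI : (t' : Set H) ⊆ I := by
            intro x hx
            obtain ⟨z, _, rfl⟩ := Finset.mem_image.1 (Finset.mem_coe.1 hx)
            exact z.2
          have hwt : w ∈ ⨆ x ∈ (t' : Set H), orb x N := by
            have hle : (⨆ x ∈ t, orb (x : H) N) ≤ ⨆ x ∈ (t' : Set H), orb x N := by
              refine iSup₂_le fun x hx => ?_
              exact le_iSup₂_of_le (x : H) (Finset.mem_coe.2 (Finset.mem_image_of_mem _ hx)) le_rfl
            exact hle ht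
          set P := proj (⨆ x ∈ (t' : Set H), orb x N) with hP
          have hPw : P w = w := proj_eq_self_iff.2 (Submodule.le_topologicalClosure _ hwt)
          have hPn : ∀ z, ‖P z‖ ≤ ‖z‖ := fun z => Submodule.norm_starProjection_apply_le _ z
          have hPK : P (proj K v) = P v := by
            have hle : (⨆ x ∈ (t' : Set H), orb x N) ≤ K := biSup_mono htI
            refine (proj_eq_of (proj_mem _ _) fun z hz => ?_).symm
            have e : v - P (proj K v) = (v - proj K v) + (proj K v - P (proj K v)) := by abel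
            rw [e, inner_add_right, sub_proj_inner v (K.le_topologicalClosure (hle hz)),
              sub_proj_inner (proj K v) (Submodule.le_topologicalClosure _ hz), add_zero]
          have h1 : ‖P v‖ ≤ Real.sqrt r := Real.le_sqrt_of_sq_le (hrt t' htI)
          have e : proj K v = P v + ((proj K v - w) - P (proj K v - w)) := by
            rw [map_sub, hPK, hPw]; abel
          have h2 : ‖proj K v - w‖ < ε / 2 := by rwa [dist_eq_norm] at hwd
          calc ‖proj K v‖ = ‖P v + ((proj K v - w) - P (proj K v - w))‖ := by rw [← e]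
            _ ≤ ‖P v‖ + ‖(proj K v - w) - P (proj K v - w)‖ := norm_add_le _ _
            _ ≤ ‖P v‖ + (‖proj K v - w‖ + ‖P (proj K v - w)‖) := by
              gcongr; exact norm_sub_le _ _
            _ ≤ Real.sqrt r + ε := by
              have := hPn (proj K v - w)
              linarith
        change 0 ≤ RCLike.re ⟪(y - proj K) v, v⟫_ℂ
        rw [_root_.sub_apply, inner_sub_left, map_sub, hnsq]
        have h3 : ‖proj K v‖ ^ 2 ≤ Real.sqrt r ^ 2 := pow_le_pow_left₀ (norm_nonneg _) hmain 2
        rw [Real.sq_sqrt hr0] at h3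
        linarith
  have hnorm := hτ.normal s0 _ ⟨_, ∅, by simp, rfl⟩ ?_ ?_ hlub
  · rw [hnorm]
    refine iSup₂_le ?_
    rintro _ ⟨t, ht, rfl⟩
    exact (sub_fin hτ t).trans (hc t fun x hx => ht hx)
  · rintro _ ⟨t, ht, rfl⟩ _ ⟨t', ht', rfl⟩
    refine ⟨_, ⟨t ∪ t', ?_, rfl⟩, ?_, ?_⟩
    · rw [Finset.coe_union]; exact Set.union_subset ht ht'
    · refine proj_le_proj (le_trans ?_ (Submodule.le_topologicalClosure _))
      exact biSup_mono (by rw [Finset.coe_union]; exact Set.subset_union_left)
    · refine proj_le_proj (le_trans ?_ (Submodule.le_topologicalClosure _))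
      exact biSup_mono (by rw [Finset.coe_union]; exact Set.subset_union_right)
  · rintro _ ⟨t, ht, rfl⟩
    exact ⟨proj_inv_mem (iSup_inv _), proj_nonneg _⟩

end Pool.Agent.Q12.Iso
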