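import Pool.Agent.Q12.Iso.Cyc

/-!
# Decomposition into cyclic submodules; superadditivity
-/

namespace Pool.Agent.Q12.Iso

open scoped InnerProductSpace ComplexOrder ENNReal NNReal

universe u

theorem zorn : P_zorn.{u} := by
  intro H _ _ _ N V hVc hV
  set C : Set (Set H) := {I | (∀ x ∈ I, x ∈ V ∧ x ≠ 0) ∧
    (∀ x ∈ I, ∀ y ∈ I, x ≠ y → ∀ n ∈ N, ⟪x, n y⟫_ℂ = 0)} with hC
  obtain ⟨I, hI⟩ := zorn_subset C (by
    intro c hc hchain
    refine ⟨⋃₀ c, ⟨?_, ?_⟩, fun s hs => Set.subset_sUnion_of_mem hs⟩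
    · rintro x ⟨s, hs, hx⟩
      exact (hc hs).1 x hx
    · rintro x ⟨s, hs, hx⟩ y ⟨t, ht, hy⟩ hne n hn
      rcases hchain.total hs ht with h | h
      · exact (hc ht).2 x (h hx) y hy hne n hn
      · exact (hc hs).2 x hx y (h hy) hne n hn)
  have hIC : I ∈ C := hI.prop
  set K : Submodule ℂ H := ⨆ x ∈ I, orb x N with hK
  have hKV : K.topologicalClosure ≤ V := by
    refine Submodule.topologicalClosure_minimal _ ?_ hVc
    refine iSup₂_le fun x hx => ?_
    rintro _ ⟨m, hm, rfl⟩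
    exact hV m hm x (hIC.1 x hx).1
  refine ⟨I, fun x hx => (hIC.1 x hx).1, hIC.2, ?_⟩
  intro v hv
  by_contra hcon
  set y := v - proj K v with hy
  have hy0 : y ≠ 0 := by
    intro h
    apply hcon
    rw [← proj_eq_self_iff]
    exact (sub_eq_zero.1 h).symm
  have hyV : y ∈ V := V.sub_mem hv (hKV (proj_mem _ _))
  have hperp : ∀ w ∈ K.topologicalClosure, ⟪w, y⟫_ℂ = 0 := fun w hw => sub_proj_inner v hw
  have hxK : ∀ x ∈ I, ∀ n ∈ N, n x ∈ K.topologicalClosure := fun x hx n hn =>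
    K.le_topologicalClosure ((le_iSup₂_of_le x hx le_rfl : orb x N ≤ K) ⟨n, hn, rfl⟩)
  have hyI : y ∉ I := by
    intro h
    have h1 := hperp y (hxK y h 1 (one_mem _))
    exact hy0 (inner_self_eq_zero.1 h1)
  have hins : insert y I ∈ C := by
    refine ⟨?_, ?_⟩
    · rintro x (rfl | hx)
      · exact ⟨hyV, hy0⟩
      · exact hIC.1 x hx
    · rintro x (rfl | hx) z (rfl | hz) hne n hn
      · exact absurd rfl hne
      · rw [← inner_conj_symm, hperp _ (hxK z hz n hn), map_zero]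
      · rw [← inner_star]
        exact hperp _ (hxK x hx _ (star_mem hn))
      · exact hIC.2 x hx z hz hne n hn
  have := hI.le_of_ge hins (Set.subset_insert y I)
  exact hyI (this (Set.mem_insert y I))

end Pool.Agent.Q12.Iso
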